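import Pool.Agent.L7h1.PX.Stm
import Pool.Agent.L7h1.PX.LatB

/-!
# Lattices over `ℤ_p` with the action of a cyclic group: the statement LAT
-/

set_option autoImplicit false
set_option linter.unusedSectionVars false

namespace Pool.Agent.L7h1.PX.Lat

open Polynomial Module Submodule

variable {p : ℕ} [hp : Fact p.Prime] {r : ℕ}

lemma toZ_eq_zero {k : ℕ} {x : ℤ_[p]} (h : PadicInt.toZModPow k x = 0) :
    ∃ y : ℤ_[p], x = (p : ℤ_[p]) ^ k * y := by
  have h1 : x ∈ RingHom.ker (PadicInt.toZModPow (p := p) k) := h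
  rw [PadicInt.ker_toZModPow, Ideal.mem_span_singleton] at h1
  exact h1

lemma toZ_pow (k : ℕ) (y : ℤ_[p]) : PadicInt.toZModPow k ((p : ℤ_[p]) ^ k * y) = 0 := by
  have h1 : (p : ℤ_[p]) ^ k * y ∈ RingHom.ker (PadicInt.toZModPow (p := p) k) := by
    rw [PadicInt.ker_toZModPow, Ideal.mem_span_singleton]
    exact ⟨y, rfl⟩
  exact h1

/-- kernel and cokernel of an endomorphism of a finite group -/
lemma card_ker {G : Type} [AddCommGroup G] [Finite G] (f : G →+ G) (Z : Finset G)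
    (hZ : ∀ z ∈ Z, ∀ z' ∈ Z, (∃ u, z - z' = f u) → z = z') : Z.card ≤ Nat.card f.ker := by
  classical
  have h1 : Nat.card f.ker = Nat.card (G ⧸ f.range) := by
    have h2 := AddSubgroup.card_eq_card_quotient_mul_card_addSubgroup f.ker
    have h3 := AddSubgroup.card_eq_card_quotient_mul_card_addSubgroup f.range
    have h4 : Nat.card (G ⧸ f.ker) = Nat.card f.range :=
      Nat.card_congr (QuotientAddGroup.quotientKerEquivRange f).toEquiv
    rw [h4] at h2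
    have h5 : 0 < Nat.card f.range := Nat.card_pos
    have h6 : Nat.card f.range * Nat.card f.ker = Nat.card f.range * Nat.card (G ⧸ f.range) := by
      rw [← h2, h3, mul_comm]
    exact Nat.eq_of_mul_eq_mul_left h5 h6
  rw [h1]
  have h2 : Function.Injective fun z : Z => (QuotientAddGroup.mk (z : G) : G ⧸ f.range) := by
    intro z z' h
    apply Subtype.ext
    have h3 := QuotientAddGroup.eq.1 h
    obtain ⟨u, hu⟩ := h3
    refine hZ z z.2 z' z'.2 ⟨-u, ?_⟩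
    rw [map_neg, hu]
    abel
  have h3 := Nat.card_le_card_of_injective _ h2
  rwa [Nat.card_eq_fintype_card, Fintype.card_coe] at h3

/-- reduction modulo `p^k` -/
noncomputable def red (k : ℕ) : (Fin r → ℤ_[p]) →+ (Fin r → ZMod (p ^ k)) where
  toFun x i := PadicInt.toZModPow k (x i)
  map_zero' := by funext i; simp
  map_add' x y := by funext i; simp

lemma red_apply (k : ℕ) (x : Fin r → ℤ_[p]) (i : Fin r) :
    red k x i = PadicInt.toZModPow k (x i) := rfl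

lemma red_eq_zero {k : ℕ} {x : Fin r → ℤ_[p]} (hx : red k x = 0) :
    ∃ y : Fin r → ℤ_[p], x = (p : ℤ_[p]) ^ k • y := by
  choose y hy using fun i => toZ_eq_zero (congrFun hx i)
  exact ⟨y, funext fun i => by rw [hy i]; rfl⟩

lemma toZ_int (k : ℕ) (z : ℤ) : PadicInt.toZModPow k (z : ℤ_[p]) = (z : ZMod (p ^ k)) :=
  map_intCast _ z

/-- the action of an integral matrix modulo `p^k` -/
def mv (p k : ℕ) (E : Matrix (Fin r) (Fin r) ℤ) : (Fin r → ZMod (p ^ k)) →+ (Fin r → ZMod (p ^ k)) where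
  toFun x := (E.map (Int.cast : ℤ → ZMod (p ^ k))).mulVec x
  map_zero' := Matrix.mulVec_zero _
  map_add' x y := Matrix.mulVec_add _ x y

lemma mv_red (k : ℕ) (E : Matrix (Fin r) (Fin r) ℤ) (x : Fin r → ℤ_[p]) :
    mv p k E (red k x) = red k ((E.map (Int.cast : ℤ → ℤ_[p])).mulVec x) := by
  funext i
  change ∑ j, (E.map (Int.cast : ℤ → ZMod (p ^ k))) i j * red k x j =
    PadicInt.toZModPow k (∑ j, (E.map (Int.cast : ℤ → ℤ_[p])) i j * x j)
  rw [map_sum]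
  refine Finset.sum_congr rfl fun j _ => ?_
  rw [map_mul, Matrix.map_apply, Matrix.map_apply, toZ_int, red_apply]

/-- the induced endomorphism of the reduction of a stable submodule -/
def fM (p k : ℕ) (E : Matrix (Fin r) (Fin r) ℤ) (Mb : AddSubgroup (Fin r → ZMod (p ^ k)))
    (h : ∀ x ∈ Mb, mv p k E x - x ∈ Mb) : Mb →+ Mb where
  toFun x := ⟨mv p k E x - x, h x x.2⟩
  map_zero' := by
    ext1
    change mv p k E 0 - 0 = 0
    rw [map_zero, sub_zero]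
  map_add' x y := by
    ext1
    change mv p k E (x + y) - (x + y) = (mv p k E x - x) + (mv p k E y - y)
    rw [map_add]
    abel

/-- **From the cokernel to the kernel.** -/
theorem fixed (k : ℕ) (A : Matrix (Fin r) (Fin r) ℤ) (M : Submodule ℤ_[p] (Fin r → ℤ_[p]))
    (hMa : ∀ x ∈ M, (A.map (Int.cast : ℤ → ℤ_[p])).mulVec x ∈ M)
    (hMsat : ∀ x, (p : ℤ_[p]) ^ k • x ∈ M → x ∈ M) (Z : Finset (Fin r → ℤ_[p]))
    (hZM : ∀ z ∈ Z, z ∈ M)
    (hZ : ∀ z ∈ Z, ∀ z' ∈ Z, (∃ u ∈ M, ∃ v ∈ M,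
      z - z' = ((A.map (Int.cast : ℤ → ℤ_[p])).mulVec u - u) + (p : ℤ_[p]) ^ k • v) → z = z') :
    ∃ X : Finset (Fin r → ZMod (p ^ k)), Z.card ≤ X.card ∧
      ∀ x ∈ X, mv p k A x = x ∧ ∃ w ∈ M, red k w = x := by
  classical
  have : NeZero (p ^ k) := ⟨pow_ne_zero _ hp.out.ne_zero⟩
  have hMb : ∀ x ∈ M.toAddSubgroup.map (red k), mv p k A x - x ∈ M.toAddSubgroup.map (red k) := by
    rintro _ ⟨y, hy, rfl⟩
    rw [mv_red, ← map_sub]
    exact ⟨_, M.sub_mem (hMa y hy) hy, rfl⟩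
  have hz1 : ∀ z : {x // x ∈ Z}, red k z.1 ∈ M.toAddSubgroup.map (red k) :=
    fun z => ⟨z.1, hZM z.1 z.2, rfl⟩
  have hinj : Function.Injective fun z : {x // x ∈ Z} =>
      (⟨red k z.1, hz1 z⟩ : M.toAddSubgroup.map (red k)) := by
    intro z z' h
    apply Subtype.ext
    have h1 : red k z.1 = red k z'.1 := congrArg Subtype.val h
    have h2 : red k (z.1 - z'.1) = 0 := by rw [map_sub, h1, sub_self]
    obtain ⟨v, hv⟩ := red_eq_zero h2
    refine hZ z.1 z.2 z'.1 z'.2 ⟨0, M.zero_mem, v, hMsat v ?_, by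
      rw [Matrix.mulVec_zero, sub_zero, zero_add, hv]⟩
    rw [← hv]
    exact M.sub_mem (hZM z.1 z.2) (hZM z'.1 z'.2)
  have hcard := card_ker (fM p k A _ hMb) (Z.attach.image fun z =>
      (⟨red k z.1, hz1 z⟩ : M.toAddSubgroup.map (red k))) (by
    intro z hz z' hz' hu
    rw [Finset.mem_image] at hz hz'
    obtain ⟨y, -, rfl⟩ := hz
    obtain ⟨y', -, rfl⟩ := hz'
    obtain ⟨u', h1⟩ := hu
    obtain ⟨u, hu, hu'⟩ := u'.2
    have h2 : red k y.1 - red k y'.1 = mv p k A (red k u) - red k u := by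
      have h3 := congrArg Subtype.val h1
      rw [hu']
      exact h3
    rw [mv_red, ← map_sub, ← map_sub] at h2
    have h3 : red k ((y.1 - y'.1) - ((A.map (Int.cast : ℤ → ℤ_[p])).mulVec u - u)) = 0 := by
      rw [map_sub, h2, sub_self]
    obtain ⟨v, hv⟩ := red_eq_zero h3
    have h4 : (p : ℤ_[p]) ^ k • v ∈ M := by
      rw [← hv]
      exact M.sub_mem (M.sub_mem (hZM _ y.2) (hZM _ y'.2)) (M.sub_mem (hMa u hu) hu)
    have h5 : y.1 = y'.1 := by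
      refine hZ _ y.2 _ y'.2 ⟨u, hu, v, hMsat v h4, ?_⟩
      rw [← hv]
      abel
    rw [Subtype.ext h5])
  rw [Finset.card_image_of_injective _ hinj, Finset.card_attach] at hcard
  have : Fintype (fM p k A _ hMb).ker := Fintype.ofFinite _
  refine ⟨Finset.image (fun x : (fM p k A _ hMb).ker => x.1.1) Finset.univ, ?_, ?_⟩
  · rw [Finset.card_image_of_injective, Finset.card_univ, ← Nat.card_eq_fintype_card]
    · exact hcard
    · intro x y h
      exact Subtype.ext (Subtype.ext h)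
  · intro x hx
    rw [Finset.mem_image] at hx
    obtain ⟨y, -, rfl⟩ := hx
    refine ⟨?_, ?_⟩
    · have h1 : fM p k A _ hMb y.1 = 0 := y.2
      have h2 := congrArg Subtype.val h1
      exact sub_eq_zero.1 h2
    · obtain ⟨w, hw, hwx⟩ := y.1.2
      exact ⟨w, hw, hwx⟩

lemma congr_int (k : ℕ) (x y : Fin r → ℤ)
    (h : ∀ i, ((x i : ℤ) : ZMod (p ^ k)) = ((y i : ℤ) : ZMod (p ^ k))) :
    ∃ z : Fin r → ℤ, x = y + (p : ℤ) ^ k • z := by
  have h1 : ∀ i, ∃ z : ℤ, x i - y i = (p : ℤ) ^ k * z := by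
    intro i
    have h2 : (((x i - y i : ℤ)) : ZMod (p ^ k)) = 0 := by
      push_cast
      rw [h i, sub_self]
    rw [ZMod.intCast_zmod_eq_zero_iff_dvd] at h2
    obtain ⟨z, hz⟩ := h2
    exact ⟨z, by rw [hz]; push_cast; ring⟩
  choose z hz using h1
  refine ⟨z, funext fun i => ?_⟩
  rw [Pi.add_apply, Pi.smul_apply, smul_eq_mul, ← hz i]
  ring

lemma congr_int' (k : ℕ) (x y z : Fin r → ℤ) (h : x = y + (p : ℤ) ^ k • z) (i : Fin r) :
    ((x i : ℤ) : ZMod (p ^ k)) = ((y i : ℤ) : ZMod (p ^ k)) := by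
  rw [h, Pi.add_apply, Pi.smul_apply, smul_eq_mul]
  push_cast
  have h1 : ((p : ZMod (p ^ k))) ^ k = 0 := by
    rw [← Nat.cast_pow]
    exact ZMod.natCast_self _
  rw [h1, zero_mul, add_zero]

/-- the coefficients in `ℂ_p` -/
noncomputable def al (p : ℕ) [Fact p.Prime] : ℤ_[p] →+* ℂ_[p] :=
  (algebraMap ℚ_[p] ℂ_[p]).comp PadicInt.Coe.ringHom

lemma norm_al (x : ℤ_[p]) : ‖al p x‖ = ‖x‖ := by
  change ‖algebraMap ℚ_[p] ℂ_[p] (x : ℚ_[p])‖ = ‖x‖
  rw [norm_algebraMap']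
  rfl

/-- small logarithms of an integral vector congruent to a relation -/
theorem small (k : ℕ) (T : Type) [Finite T] (l : T → Fin r → ℂ_[p]) (w : Fin r → ℤ_[p])
    (hw : ∀ σ, ∑ i, al p (w i) * l σ i = 0) (y : Fin r → ℤ)
    (hy : ∀ i, PadicInt.toZModPow k (w i) = ((y i : ℤ) : ZMod (p ^ k))) (ε : ℝ) (hε : 0 < ε) :
    ∃ z : Fin r → ℤ, ∀ σ, ‖∑ i, ((y + (p : ℤ) ^ k • z) i : ℂ_[p]) * l σ i‖ < ε := by
  have h2 : red k (w - fun i => ((y i : ℤ) : ℤ_[p])) = 0 := by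
    funext i
    rw [red_apply, Pi.sub_apply, map_sub, hy, toZ_int, sub_self]
    rfl
  obtain ⟨v, hv⟩ := red_eq_zero h2
  obtain ⟨C, hC0, hC⟩ : ∃ C : ℝ, 0 < C ∧ ∀ σ i, ‖l σ i‖ ≤ C := by
    have := Fintype.ofFinite T
    refine ⟨∑ σ, ∑ i, ‖l σ i‖ + 1, by positivity, fun σ i => ?_⟩
    have h3 : ‖l σ i‖ ≤ ∑ i, ‖l σ i‖ :=
      Finset.single_le_sum (f := fun i => ‖l σ i‖) (fun _ _ => norm_nonneg _) (Finset.mem_univ i)
    have h4 : ∑ i, ‖l σ i‖ ≤ ∑ σ, ∑ i, ‖l σ i‖ :=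
      Finset.single_le_sum (f := fun σ => ∑ i, ‖l σ i‖)
        (fun _ _ => Finset.sum_nonneg fun _ _ => norm_nonneg _) (Finset.mem_univ σ)
    linarith
  obtain ⟨m, hm⟩ : ∃ m : ℕ, (r + 1 : ℝ) * C * ((p : ℝ)⁻¹) ^ m < ε := by
    have h2 : Filter.Tendsto (fun i : ℕ => (r + 1 : ℝ) * C * ((p : ℝ)⁻¹) ^ i) Filter.atTop
        (nhds ((r + 1 : ℝ) * C * 0)) :=
      (tendsto_pow_atTop_nhds_zero_of_lt_one (by positivity)
        (inv_lt_one_of_one_lt₀ (by exact_mod_cast hp.out.one_lt))).const_mul _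
    rw [mul_zero] at h2
    exact (h2.eventually (gt_mem_nhds hε)).exists
  refine ⟨fun i => ((PadicInt.appr (v i) m : ℕ) : ℤ), fun σ => ?_⟩
  have h3 : ∀ i, ∃ q : ℤ_[p], ((((y + (p : ℤ) ^ k •
      (fun i => ((PadicInt.appr (v i) m : ℕ) : ℤ))) i : ℤ)) : ℤ_[p]) =
        w i - (p : ℤ_[p]) ^ m * q := by
    intro i
    have h4 := PadicInt.appr_spec m (v i)
    rw [Ideal.mem_span_singleton] at h4
    obtain ⟨q, hq⟩ := h4
    have h5 := congrFun hv i
    rw [Pi.sub_apply, Pi.smul_apply, smul_eq_mul] at h5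
    refine ⟨(p : ℤ_[p]) ^ k * q, ?_⟩
    rw [Pi.add_apply, Pi.smul_apply, smul_eq_mul]
    push_cast
    linear_combination -h5 - (p : ℤ_[p]) ^ k * hq
  choose q hq using h3
  have h8 : ∀ i, (((y + (p : ℤ) ^ k • (fun i => ((PadicInt.appr (v i) m : ℕ) : ℤ))) i : ℤ) :
      ℂ_[p]) = al p (w i) - al p ((p : ℤ_[p]) ^ m) * al p (q i) := by
    intro i
    rw [← map_mul, ← map_sub, ← hq i, map_intCast]
  have h6 : ∑ i, (((y + (p : ℤ) ^ k • (fun i => ((PadicInt.appr (v i) m : ℕ) : ℤ))) i : ℤ) :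
      ℂ_[p]) * l σ i = - (al p ((p : ℤ_[p]) ^ m) * ∑ i, al p (q i) * l σ i) := by
    simp_rw [h8, sub_mul]
    rw [Finset.sum_sub_distrib, hw σ, zero_sub, Finset.mul_sum]
    congr 1
    refine Finset.sum_congr rfl fun i _ => ?_
    ring
  rw [h6, norm_neg, norm_mul]
  have h9 : ‖∑ i, al p (q i) * l σ i‖ ≤ ∑ _i : Fin r, C := by
    refine (norm_sum_le _ _).trans (Finset.sum_le_sum fun i _ => ?_)
    rw [norm_mul, norm_al]
    exact (mul_le_of_le_one_left (norm_nonneg _) (PadicInt.norm_le_one _)).trans (hC σ i)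
  rw [Finset.sum_const, Finset.card_univ, Fintype.card_fin, nsmul_eq_mul] at h9
  rw [norm_al, norm_pow, PadicInt.norm_p]
  have hpm : (0 : ℝ) < ((p : ℝ)⁻¹) ^ m := by
    have : (0 : ℝ) < p := by exact_mod_cast hp.out.pos
    positivity
  calc ((p : ℝ)⁻¹) ^ m * ‖∑ i, al p (q i) * l σ i‖ ≤ ((p : ℝ)⁻¹) ^ m * (r * C) :=
        mul_le_mul_of_nonneg_left h9 hpm.le
    _ ≤ (r + 1 : ℝ) * C * ((p : ℝ)⁻¹) ^ m := by nlinarith
    _ < ε := hm

lemma tf_V (x : Fin r → ℤ_[p]) (hx : (p : ℤ_[p]) • x = 0) : x = 0 := by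
  funext i
  have h1 := congrFun hx i
  rw [Pi.smul_apply, smul_eq_mul, Pi.zero_apply] at h1
  rcases mul_eq_zero.1 h1 with h2 | h2
  · exact absurd (by exact_mod_cast h2) hp.out.ne_zero
  · exact h2

lemma sep_V (x : Fin r → ℤ_[p]) (hx : ∀ i : ℕ, ∃ y, x = (p : ℤ_[p]) ^ i • y) : x = 0 := by
  funext j
  rw [Pi.zero_apply, ← norm_eq_zero]
  have h1 : ∀ i : ℕ, ‖x j‖ ≤ ((p : ℝ)⁻¹) ^ i := by
    intro i
    obtain ⟨y, hy⟩ := hx i
    rw [hy, Pi.smul_apply, smul_eq_mul, norm_mul, norm_pow, PadicInt.norm_p]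
    exact mul_le_of_le_one_right (by positivity) (PadicInt.norm_le_one _)
  have h2 : Filter.Tendsto (fun i : ℕ => ((p : ℝ)⁻¹) ^ i) Filter.atTop (nhds 0) :=
    tendsto_pow_atTop_nhds_zero_of_lt_one (by positivity)
      (inv_lt_one_of_one_lt₀ (by exact_mod_cast hp.out.one_lt))
  exact le_antisymm (ge_of_tendsto' h2 h1) (norm_nonneg _)

/-- the module of the relations -/
noncomputable def WW (T : Type) (l : T → Fin r → ℂ_[p]) (D : Matrix (Fin r) (Fin r) ℤ) (ω : ℤ_[p]) :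
    Submodule ℤ_[p] (Fin r → ℤ_[p]) where
  carrier := {x | (∀ σ, ∑ i, al p (x i) * l σ i = 0) ∧
    (D.map (Int.cast : ℤ → ℤ_[p])).mulVec x = ω • x}
  zero_mem' := ⟨fun σ => by simp, by simp⟩
  add_mem' := by
    rintro x y ⟨hx1, hx2⟩ ⟨hy1, hy2⟩
    refine ⟨fun σ => ?_, by rw [Matrix.mulVec_add, hx2, hy2, smul_add]⟩
    simp only [Pi.add_apply, map_add, add_mul, Finset.sum_add_distrib]
    rw [hx1 σ, hy1 σ, add_zero]
  smul_mem' := by
    rintro c x ⟨hx1, hx2⟩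
    refine ⟨fun σ => ?_, by rw [Matrix.mulVec_smul, hx2, smul_comm]⟩
    simp only [Pi.smul_apply, smul_eq_mul, map_mul, mul_assoc]
    rw [← Finset.mul_sum, hx1 σ, mul_zero]

lemma mem_WW {T : Type} {l : T → Fin r → ℂ_[p]} {D : Matrix (Fin r) (Fin r) ℤ} {ω : ℤ_[p]}
    {x : Fin r → ℤ_[p]} : x ∈ WW T l D ω ↔ (∀ σ, ∑ i, al p (x i) * l σ i = 0) ∧
      (D.map (Int.cast : ℤ → ℤ_[p])).mulVec x = ω • x := Iff.rfl

/-- the endomorphism given by the matrix -/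
noncomputable def en (p : ℕ) [Fact p.Prime] (A : Matrix (Fin r) (Fin r) ℤ) :
    (Fin r → ℤ_[p]) →ₗ[ℤ_[p]] (Fin r → ℤ_[p]) :=
  Matrix.toLinAlgEquiv' (A.map (Int.cast : ℤ → ℤ_[p]))

lemma en_apply (A : Matrix (Fin r) (Fin r) ℤ) (x : Fin r → ℤ_[p]) :
    en p A x = (A.map (Int.cast : ℤ → ℤ_[p])).mulVec x := rfl

lemma aeval_en (A : Matrix (Fin r) (Fin r) ℤ) (q : ℤ_[p][X]) (x : Fin r → ℤ_[p]) :
    aeval (en p A) q x = (aeval (A.map (Int.cast : ℤ → ℤ_[p])) q).mulVec x := by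
  have h1 : aeval (en p A) q = Matrix.toLinAlgEquiv' (aeval (A.map (Int.cast : ℤ → ℤ_[p])) q) :=
    aeval_algHom_apply (Matrix.toLinAlgEquiv' (R := ℤ_[p]) (n := Fin r)) _ q
  rw [h1]
  rfl

lemma en_pow (A : Matrix (Fin r) (Fin r) ℤ) (n : ℕ) (hA : A ^ p ^ n = 1) : (en p A) ^ p ^ n = 1 := by
  have h1 : A.map (Int.cast : ℤ → ℤ_[p]) = (Int.castRingHom ℤ_[p]).mapMatrix A := rfl
  rw [en, h1, ← map_pow, ← map_pow, hA, map_one, map_one]

lemma WW_stable {T : Type} {l : T → Fin r → ℂ_[p]} {A D : Matrix (Fin r) (Fin r) ℤ} {ω : ℤ_[p]}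
    (hAD : A * D = D * A) (hl : ∀ σ : T, ∃ σ' : T, ∀ i, ∑ j, (A j i : ℂ_[p]) * l σ j = l σ' i) :
    ∀ x ∈ WW T l D ω, en p A x ∈ WW T l D ω := by
  intro x hx
  rw [mem_WW] at hx ⊢
  refine ⟨fun σ => ?_, ?_⟩
  · obtain ⟨σ', hσ'⟩ := hl σ
    rw [← hx.1 σ']
    have h1 : ∀ i, al p ((en p A x) i) = ∑ j, (A i j : ℂ_[p]) * al p (x j) := by
      intro i
      rw [en_apply, Matrix.mulVec, dotProduct, map_sum]
      refine Finset.sum_congr rfl fun j _ => ?_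
      rw [map_mul]
      congr 1
      exact map_intCast (al p) _
    simp_rw [h1, Finset.sum_mul]
    rw [Finset.sum_comm]
    refine Finset.sum_congr rfl fun j _ => ?_
    rw [← hσ' j, Finset.mul_sum]
    refine Finset.sum_congr rfl fun i _ => ?_
    ring
  · have hc : D.map (Int.cast : ℤ → ℤ_[p]) * A.map (Int.cast : ℤ → ℤ_[p]) =
        A.map (Int.cast : ℤ → ℤ_[p]) * D.map (Int.cast : ℤ → ℤ_[p]) := by
      have h1 : ∀ B : Matrix (Fin r) (Fin r) ℤ, B.map (Int.cast : ℤ → ℤ_[p]) =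
        (Int.castRingHom ℤ_[p]).mapMatrix B := fun _ => rfl
      rw [h1, h1, ← map_mul, ← map_mul, hAD]
    rw [en_apply, Matrix.mulVec_mulVec, hc, ← Matrix.mulVec_mulVec, hx.2, Matrix.mulVec_smul]

lemma MJ_sat {T : Type} {l : T → Fin r → ℂ_[p]} {A D : Matrix (Fin r) (Fin r) ℤ} {ω : ℤ_[p]}
    (J : Finset ℕ) (k : ℕ) (x : Fin r → ℤ_[p])
    (hx : (p : ℤ_[p]) ^ k • x ∈ MJ (en p A) (WW T l D ω) J) : x ∈ MJ (en p A) (WW T l D ω) J := by
  have hp0 : al p ((p : ℤ_[p]) ^ k) ≠ 0 := by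
    rw [map_pow, map_natCast]
    exact pow_ne_zero _ (by exact_mod_cast hp.out.ne_zero)
  refine ⟨mem_WW.2 ⟨fun σ => ?_, ?_⟩, ?_⟩
  · have h1 := (mem_WW.1 hx.1).1 σ
    simp only [Pi.smul_apply, smul_eq_mul, map_mul, mul_assoc] at h1
    rw [← Finset.mul_sum] at h1
    rcases mul_eq_zero.1 h1 with h2 | h2
    · exact absurd h2 hp0
    · exact h2
  · have h1 := (mem_WW.1 hx.1).2
    rw [Matrix.mulVec_smul, smul_comm, ← sub_eq_zero, ← smul_sub] at h1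
    exact sub_eq_zero.1 (pow_tf tf_V k _ h1)
  · change aeval (en p A) (PP p J) x = 0
    have h1 := (mem_MJ.1 hx).2
    rw [map_smul] at h1
    exact pow_tf tf_V k _ h1

end Pool.Agent.L7h1.PX.Lat

namespace Pool.Agent.L7h1.PX

open Polynomial Module Submodule Pool.Agent.L7h1.PX.Lat

theorem s_LAT : S_LAT := by
  classical
  intro p hp r n A D ω T hT l J s hA hAD hl hJ hs
  have hW := WW_stable (p := p) (ω := ω) hAD hl
  have hlev : ∀ j ∈ J, 1 ≤ j ∧ ∃ x ∈ WW T l D ω, x ≠ 0 ∧ aeval (en p A) (Ph p j) x = 0 := by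
    intro j hj
    obtain ⟨h1, x, h2, h3, h4, h5⟩ := hJ j hj
    refine ⟨h1, x, mem_WW.2 ⟨h3, h4⟩, h2, ?_⟩
    rw [aeval_en]
    exact h5
  obtain ⟨Z, hZc, hZM, hZ⟩ := chain (en p A) tf_V sep_V (en_pow A n hA) _ hW J hlev J.card le_rfl
  have hMa : ∀ x ∈ MJ (en p A) (WW T l D ω) J,
      (A.map (Int.cast : ℤ → ℤ_[p])).mulVec x ∈ MJ (en p A) (WW T l D ω) J := by
    intro x hx
    refine ⟨hW x hx.1, ?_⟩
    change aeval (en p A) (PP p J) (en p A x) = 0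
    have h1 := aeval_swap (en p A) (PP p J) X x
    rw [aeval_X] at h1
    rw [h1, (mem_MJ.1 hx).2, map_zero]
  obtain ⟨X, hX, hXx⟩ := fixed J.card A _ hMa (fun x hx => MJ_sat J _ x hx) Z hZM (by
    rintro z hz z' hz' ⟨u, hu, v, hv, h⟩
    refine hZ z hz z' hz' ⟨u, hu, v, hv, ?_⟩
    rw [h, aeval_Xs, en_apply])
  have : NeZero (p ^ J.card) := ⟨pow_ne_zero _ hp.out.ne_zero⟩
  have hlift : ∀ (x : Fin r → ZMod (p ^ J.card)) i,
      ((((x i).val : ℕ) : ℤ) : ZMod (p ^ J.card)) = x i := by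
    intro x i
    simp
  refine ⟨X.image fun x i => (((x i).val : ℕ) : ℤ), ?_, ?_, ?_⟩
  · rw [Finset.card_image_of_injective]
    · exact hZc.symm.le.trans hX
    · intro x y h
      funext i
      rw [← hlift x, ← hlift y]
      exact congrArg _ (congrFun h i)
  · intro y hy y' hy' hne hz
    rw [Finset.mem_image] at hy hy'
    obtain ⟨x, -, rfl⟩ := hy
    obtain ⟨x', -, rfl⟩ := hy'
    obtain ⟨z, hz⟩ := hz
    apply hne
    have h2 : x = x' := by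
      funext i
      rw [← hlift x, ← hlift x']
      exact congr_int' _ _ _ z hz i
    rw [h2]
  · intro y hy
    rw [Finset.mem_image] at hy
    obtain ⟨ξ, hξ, rfl⟩ := hy
    obtain ⟨hx1, w, hw, hwx⟩ := hXx ξ hξ
    obtain ⟨zs, hzs⟩ := hs
    have hsω : ((s : ℤ) : ZMod (p ^ J.card)) = PadicInt.toZModPow J.card ω := by
      rw [← toZ_int, hzs, map_add, toZ_pow, add_zero]
    have hx2 : mv p J.card D ξ = fun i => ((s : ℤ) : ZMod (p ^ J.card)) * ξ i := by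
      rw [← hwx, mv_red, (mem_WW.1 hw.1).2]
      funext i
      rw [hsω, red_apply, red_apply, ← map_mul]
      rfl
    have hE : ∀ (E : Matrix (Fin r) (Fin r) ℤ) i,
        ((E.mulVec (fun i => (((ξ i).val : ℕ) : ℤ)) i : ℤ) : ZMod (p ^ J.card)) =
          mv p J.card E ξ i := by
      intro E i
      change ((∑ j, E i j * (((ξ j).val : ℕ) : ℤ) : ℤ) : ZMod (p ^ J.card)) =
        ∑ j, (E.map (Int.cast : ℤ → ZMod (p ^ J.card))) i j * ξ j
      rw [Int.cast_sum]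
      refine Finset.sum_congr rfl fun j _ => ?_
      rw [Int.cast_mul, hlift, Matrix.map_apply]
    refine ⟨congr_int _ _ _ fun i => ?_, congr_int _ _ _ fun i => ?_, fun ε hε => ?_⟩
    · rw [hE, hx1, hlift]
    · rw [hE, hx2, Pi.smul_apply, smul_eq_mul, Int.cast_mul, hlift]
    · refine small J.card T l w (mem_WW.1 hw.1).1 _ (fun i => ?_) ε hε
      rw [hlift, ← hwx]
      rfl

end Pool.Agent.L7h1.PX
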