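import Pool.Agent.L7h1.PX.Stm

/-!
# Project PX: second version (characters `χ₀` of ANY order `t`)

The eigenvalue condition `δ x = ω x` is replaced by `Φ_t(δ) x = 0` (`Φ_t` the cyclotomic polynomial), that is
all faithful characters of `Gal(B/K)`, cyclic of order `t` (any `t`, also divisible by `p`), are treated together. LAT is used
with `D := Φ_t(D)`, `ω = 0`, `s = 0`. New versions of VD and BND, and the statement VFIN.
-/

set_option autoImplicit false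

namespace Pool.Agent.L7h1.PX

open NumberField TensorProduct Pool.Agent.W289.SL Module IsDedekindDomain Polynomial

/-- the endomorphism of the additive group of units of `𝓞 B` -/
noncomputable def uE {B : Type} [Field B] [NumberField B] (δ : B →+* B) :
    Module.End ℤ (Additive (𝓞 B)ˣ) := (unitHom δ).toIntLinearMap

/-- the endomorphism of the additive group `Additive Bˣ` -/
noncomputable def bE {B : Type} [Field B] (δ : B →+* B) : Module.End ℤ (Additive Bˣ) :=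
  (MonoidHom.toAdditive (Units.map (δ : B →* B))).toIntLinearMap

/-- VD2: the valuations at primes stable under a power `δ^m`, `0 < m < t`. PROOF: let `m' = gcd(m, t)`, a proper
divisor of `t`; `v` is stable under `δ^m'`. There are `α, β ∈ ℤ[X]` and an integer `N > 0` with
`N = α Φ_t + β (X^m' - 1)` (coprime over `ℚ`; `p ∤ N` can be achieved if `p ∤ t`: coprime modulo `p`,
as `X^t - 1` is separable modulo `p` — or: if `t/m'` has a prime factor `q ≠ p`, `N` a power of `q`, see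
`Polynomial.cyclotomic` ... the resultant divides a power of `t`: from `t = X^(t-1)·t` and the derivative of
`X^t - 1 = Φ_t · Ψ` one gets `t = t X^(t-1) · X = X (Φ_t' Ψ + Φ_t Ψ')` modulo `X^t - 1`, and
`X^m' - 1 ∣ Ψ`, so `t ∈ (Φ_t, Ψ) ⊆ (Φ_t, X^m' - 1)`: `N = t` is possible!). Apply this to `a` and take
the valuation at `v`: `v(β(δ)(δ^m' - 1) a) = 0` since `v ∘ δ^m' = v`, and `v(α(δ) Φ_t(δ) a)` is divisible by `p^k`.
So `p^k ∣ N v(a)`; `c₁ = v_p(N)`. -/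
def S_VD2 : Prop := ∀ (p : ℕ) [Fact p.Prime] (t : ℕ), 0 < t → ∃ c₁ : ℕ, (¬ p ∣ t → c₁ = 0) ∧
  ∀ (B : Type) [Field B] [NumberField B] (k : ℕ) (δ : B ≃+* B) (m : ℕ) (v : HeightOneSpectrum (𝓞 B)),
  (∀ x, (δ : B → B)^[t] x = x) → 0 < m → m < t →
  (∀ x y : 𝓞 B, (y : B) = (δ : B → B)^[m] (x : B) → (x ∈ v.asIdeal ↔ y ∈ v.asIdeal)) →
  ∀ a c : Bˣ, aeval (bE (δ : B →+* B)) (cyclotomic t ℤ) (Additive.ofMul a) = p ^ k • Additive.ofMul c →
    Dvd v (p ^ (k - c₁)) (a : B)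

/-- BND2: as BND, with the condition `Φ_t(δ) x = 0`. PROOF: `Ψ = (X^t - 1)/Φ_t`,
`N = α Φ_t + β Ψ` in `ℤ[X]` with an integer `N > 0` (for example `N = t`, see VD2). For the
vector `n ∈ ℤ^r` of `u` let `x = β(D) Ψ(D) n`; `Φ_t(D) x = 0`, `N n ≡ x` modulo `p^k`. So
`‖log_τ x‖ ≤ C' p^(-k)`, `x ∈ p^(k-c) ℤ_p^r` by injectivity, and `n ∈ p^(k-c-v(N)) ℤ^r`. -/
def S_BND2 : Prop := ∀ (p : ℕ) [Fact p.Prime] (B : Type) [Field B] [NumberField B],
  (∀ ζ : B, ζ ^ p = 1 → ζ = 1) → ∀ (L : ℂ_[p] → ℂ_[p]) (hL : IsIwasawaLog p L)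
  (S : Set (B →+* ℂ_[p])) (δ : B ≃+* B) (t : ℕ), 0 < t → (∀ x, (δ : B → B)^[t] x = x) →
  (∀ x : UM p B, aeval (actLin p (δ : B →+* B)) (cyclotomic t ℤ) x = 0 →
    (∀ τ ∈ S, logLin hL τ x = 0) → x = 0) →
  ∀ C : ℝ, ∃ c : ℕ, ∀ (k : ℕ) (u w : (𝓞 B)ˣ),
    (∀ τ ∈ S, ‖L (τ ((u : 𝓞 B) : B))‖ ≤ C * ((p : ℝ)⁻¹) ^ k) →
    aeval (uE (δ : B →+* B)) (cyclotomic t ℤ) (Additive.ofMul u) = p ^ k • Additive.ofMul w →
    ∃ w : (𝓞 B)ˣ, u = w ^ p ^ (k - c)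

/-- VFIN: finiteness of the Selmer groups, uniformly in `k`. PROOF from CLS, SEL, LOGB, BND2:
let `a ∈ Y`. CLS: `a^h = u b^(p^k)`. `τ u` is a `p^k`-th power in `cl τ`, so LOGB gives the bound of
BND2 (`S` is finite), `Φ_t(δ) u = p^k (h c - Φ_t(δ) b)`, an element whose `p^k`-th power is a unit is a unit. BND2:
`u = w^(p^(k-c))`. Let `h = p^f h'`, `p ∤ h'`, and `k ≥ c + f`: `a^h = y^(p^(k-c))`, so
`a^h' = y^(p^(k-c-f))` (no `p`-th roots of unity), and by Bezout `a = x^(p^(k-c-f))`. Then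
`Dvd v (p^(c+f)) x` for all `v`, and `x`, `x'` are incongruent modulo `p^(c+f)`-th powers if `a`, `a'` are
incongruent modulo `p^k`-th powers: SEL. For `k < c + f` use SEL with `m = p^k`. -/
def S_VFIN : Prop := ∀ (p : ℕ) [Fact p.Prime] (B : Type) [Field B] [NumberField B],
  (∀ ζ : B, ζ ^ p = 1 → ζ = 1) → ∀ (L : ℂ_[p] → ℂ_[p]) (hL : IsIwasawaLog p L)
  (S : Set (B →+* ℂ_[p])) (δ : B ≃+* B) (t : ℕ), 0 < t → (∀ x, (δ : B → B)^[t] x = x) →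
  (∀ x : UM p B, aeval (actLin p (δ : B →+* B)) (cyclotomic t ℤ) x = 0 →
    (∀ τ ∈ S, logLin hL τ x = 0) → x = 0) →
  ∃ C : ℕ, ∀ (k : ℕ) (Y : Finset Bˣ),
    (∀ a ∈ Y, (∀ v : HeightOneSpectrum (𝓞 B), Dvd v (p ^ k) (a : B)) ∧
      (∀ τ ∈ S, ∃ b ∈ cl τ, b ^ p ^ k = τ (a : B)) ∧
      ∃ c : Bˣ, aeval (bE (δ : B →+* B)) (cyclotomic t ℤ) (Additive.ofMul a) =
        p ^ k • Additive.ofMul c) →
    (∀ a ∈ Y, ∀ a' ∈ Y, a ≠ a' → ¬ ∃ c : Bˣ, a = a' * c ^ p ^ k) → Y.card ≤ C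

end Pool.Agent.L7h1.PX
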