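import Pool.Agent.L7h1.PX.Red2
import Pool.Agent.L7h97.PX.Uni
import Pool.Agent.L7h30.PX.Down

/-!
# Project PX: the base field and the Selmer group modulo `p`
-/

set_option autoImplicit false
set_option linter.unusedSectionVars false

namespace Pool.Agent.L7h1.PX

open NumberField TensorProduct Pool.Agent.W289.SL Module IsDedekindDomain Polynomial
open Pool.Agent.L7h28.PX (cz cz_spec cf cf_tmul decomp power_of_dvd)
open Pool.Agent.L7h30.PX (aeval_comm nuL)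
open Pool.Agent.L7h97.PX (fz cz_fz uz cz_uz cz_end mat mat_aeval cf_end log_dec log_vec)

variable {p : ℕ} [hp : Fact p.Prime]

theorem kernel_unit (hRAT : S_RAT) {B : Type} [Field B] [NumberField B]
    (hroot : ∀ ζ : B, ζ ^ p = 1 → ζ = 1) {L : ℂ_[p] → ℂ_[p]} (hL : IsIwasawaLog p L)
    (T : Set (B →+* ℂ_[p]))
    (hT : ∀ σ σ' : B →+* ℂ_[p], (∀ y, ‖σ' y‖ = ‖σ y‖) → σ ∈ T → σ' ∈ T) (f : B →+* B) (P : ℤ[X])
    (x : UM p B) (hx0 : x ≠ 0) (hxL : ∀ σ ∈ T, logLin hL σ x = 0)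
    (hxP : aeval (actLin p f) P x = 0) (k : ℕ) :
    ∃ u : (𝓞 B)ˣ, (∀ i i' : ℕ, i < p ^ k → i' < p ^ k → i ≠ i' →
        ¬ ∃ w : (𝓞 B)ˣ, u ^ i = u ^ i' * w ^ p ^ k) ∧
      (∃ w : (𝓞 B)ˣ, aeval (uE f) P (Additive.ofMul u) = p ^ k • Additive.ofMul w) ∧
      ∀ ε : ℝ, 0 < ε → ∃ w : (𝓞 B)ˣ, ∀ σ ∈ T, ‖L (σ (((u * w ^ p ^ k : (𝓞 B)ˣ) : 𝓞 B) : B))‖ < ε := by
  classical
  set r := Units.rank B with hr
  have hp1 : (1 : ℝ) < p := by exact_mod_cast hp.out.one_lt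
  obtain ⟨i0, hi0⟩ : ∃ i0, cf i0 x ≠ 0 := by
    by_contra hcon
    push Not at hcon
    apply hx0
    rw [decomp x]
    exact Finset.sum_eq_zero fun i _ => by rw [hcon i]; exact zero_smul ℂ_[p] _
  obtain ⟨φ, hφ⟩ : ∃ φ : ℂ_[p] →ₗ[ℚ_[p]] ℚ_[p], φ (cf i0 x) ≠ 0 := by
    by_contra hcon
    push Not at hcon
    exact hi0 ((Module.forall_dual_apply_eq_zero_iff ℚ_[p] _).1 hcon)
  have : Nonempty (Fin r) := ⟨i0⟩
  obtain ⟨i1, hi1⟩ := Finite.exists_max fun i => ‖φ (cf i x)‖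
  have hne : φ (cf i1 x) ≠ 0 := by
    rw [← norm_pos_iff]
    exact lt_of_lt_of_le (norm_pos_iff.2 hφ) (hi1 i0)
  let y : Fin r → ℤ_[p] := fun i => ⟨φ (cf i x) / φ (cf i1 x), by
    rw [norm_div]
    exact div_le_one_of_le₀ (hi1 i) (norm_nonneg _)⟩
  have hy : ∀ i, ((y i : ℤ_[p]) : ℚ_[p]) = φ (cf i x) / φ (cf i1 x) := fun i => rfl
  have hy1 : y i1 = 1 := by
    apply PadicInt.ext
    rw [hy, div_self hne]
    rfl
  -- linear equations
  have key : ∀ M : Matrix (Fin r) (Fin r) ℤ, (∀ i, ∑ j, ((M i j : ℤ) : ℂ_[p]) * cf j x = 0) →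
      ∀ i, ∑ j, ((M i j : ℤ) : ℤ_[p]) * y j = 0 := by
    intro M hM i
    have h1 := congrArg φ (hM i)
    rw [map_sum, map_zero] at h1
    have h2 : ∀ j, φ (((M i j : ℤ) : ℂ_[p]) * cf j x) = ((M i j : ℤ) : ℚ_[p]) * φ (cf j x) := by
      intro j
      have e : ((M i j : ℤ) : ℂ_[p]) * cf j x = ((M i j : ℤ) : ℚ_[p]) • cf j x := by
        rw [Algebra.smul_def, map_intCast]
      rw [e, map_smul, smul_eq_mul]
    rw [Finset.sum_congr rfl fun j _ => h2 j] at h1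
    apply PadicInt.ext
    rw [PadicInt.coe_sum]
    have h3 : ∀ j, ((((M i j : ℤ) : ℤ_[p]) * y j : ℤ_[p]) : ℚ_[p]) =
        (φ (cf i1 x))⁻¹ * (((M i j : ℤ) : ℚ_[p]) * φ (cf j x)) := by
      intro j
      rw [PadicInt.coe_mul, hy]
      push_cast
      ring
    rw [Finset.sum_congr rfl fun j _ => h3 j, ← Finset.mul_sum, h1, mul_zero]
    rfl
  have hlog : ∀ σ ∈ T, ∑ i, algebraMap ℚ_[p] ℂ_[p] ((y i : ℤ_[p]) : ℚ_[p]) *
      L (σ ((Units.fundSystem B i : 𝓞 B) : B)) = 0 := by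
    intro σ hσ
    have h1 := hRAT p B L hL r (fun i => Units.fundSystem B i) (fun i => cf i x) σ (by
      intro σ' hσ'
      rw [← log_vec hL]
      exact hxL σ' (hT σ σ' hσ' hσ)) φ
    have h2 : ∀ i, algebraMap ℚ_[p] ℂ_[p] ((y i : ℤ_[p]) : ℚ_[p]) *
        L (σ ((Units.fundSystem B i : 𝓞 B) : B)) =
        algebraMap ℚ_[p] ℂ_[p] (φ (cf i1 x))⁻¹ * (algebraMap ℚ_[p] ℂ_[p] (φ (cf i x)) *
          L (σ ((Units.fundSystem B i : 𝓞 B) : B))) := by
      intro i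
      rw [hy, div_eq_mul_inv, map_mul]
      ring
    rw [Finset.sum_congr rfl fun i _ => h2 i, ← Finset.mul_sum, h1, mul_zero]
  -- approximations
  have happ : ∀ (N : ℕ) (i : Fin r), ∃ z : ℤ_[p], y i = (((y i).appr N : ℤ) : ℤ_[p]) +
      (p : ℤ_[p]) ^ N * z := by
    intro N i
    have h1 := PadicInt.appr_spec N (y i)
    rw [Ideal.mem_span_singleton] at h1
    obtain ⟨z, hz⟩ := h1
    refine ⟨z, ?_⟩
    rw [← hz]
    push_cast
    ring
  have hcE : ∀ (E : Module.End ℤ (Additive (𝓞 B)ˣ)) (n : Fin r → ℤ) i,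
      cz B i (E (uz n)) = ∑ j, mat E i j * n j := by
    intro E n i
    rw [cz_end]
    simp only [cz_uz]
  set n : Fin r → ℤ := fun i => (((y i).appr k : ℕ) : ℤ) with hn
  refine ⟨(uz n).toMul, ?_, ?_, ?_⟩
  · rintro i i' hi hi' hne' ⟨w, hw⟩
    have h1 : (i : ℕ) • uz n = (i' : ℕ) • uz n + p ^ k • Additive.ofMul w := hw
    have h2 := congrArg (cz B i1) h1
    rw [map_add, map_nsmul, map_nsmul, map_nsmul, cz_uz, nsmul_eq_mul, nsmul_eq_mul, nsmul_eq_mul] at h2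
    obtain ⟨z, hz⟩ := happ k i1
    have h3 : ((n i1 : ℤ) : ℤ_[p]) = 1 - (p : ℤ_[p]) ^ k * z := by
      rw [← hy1]
      linear_combination -hz
    have h4 : (((i : ℤ) - (i' : ℤ) : ℤ) : ℤ_[p]) ∈ Ideal.span {(p : ℤ_[p]) ^ k} := by
      rw [Ideal.mem_span_singleton]
      refine ⟨((cz B i1 (Additive.ofMul w) : ℤ) : ℤ_[p]) + ((i : ℤ_[p]) - (i' : ℤ_[p])) * z, ?_⟩
      have h5 := congrArg (fun q : ℤ => (q : ℤ_[p])) h2
      push_cast at h5 ⊢
      rw [h3] at h5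
      linear_combination h5
    rw [← PadicInt.norm_le_pow_iff_mem_span_pow, PadicInt.norm_int_le_pow_iff_dvd] at h4
    obtain ⟨q, hq⟩ := h4
    have h6 : (0 : ℤ) < (p : ℤ) ^ k := by exact_mod_cast pow_pos hp.out.pos k
    have h7 : ((i : ℤ)) < (p : ℤ) ^ k := by exact_mod_cast hi
    have h8 : ((i' : ℤ)) < (p : ℤ) ^ k := by exact_mod_cast hi'
    have h9 : q = 0 := by
      have h10 : (p : ℤ) ^ k * q < (p : ℤ) ^ k * 1 := by
        have : (0 : ℤ) ≤ i' := by positivity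
        push_cast at hq
        linarith
      have h11 : (p : ℤ) ^ k * (-1) < (p : ℤ) ^ k * q := by
        have : (0 : ℤ) ≤ i := by positivity
        push_cast at hq
        linarith
      have h12 := lt_of_mul_lt_mul_left h10 h6.le
      have h13 := lt_of_mul_lt_mul_left h11 h6.le
      omega
    rw [h9, mul_zero] at hq
    omega
  · have hdvd : ∀ i, ((p : ℤ) ^ k) ∣ cz B i (Additive.ofMul ((aeval (uE f) P (uz n)).toMul : (𝓞 B)ˣ)) := by
      intro i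
      have h1 : cz B i (Additive.ofMul ((aeval (uE f) P (uz n)).toMul : (𝓞 B)ˣ)) =
          ∑ j, mat (aeval (uE f) P) i j * n j := hcE _ n i
      rw [h1]
      have h2 := key (mat (aeval (uE f) P)) (fun i => by rw [← cf_end, hxP, map_zero]) i
      choose z hz using happ k
      have h3 : (((∑ j, mat (aeval (uE f) P) i j * n j : ℤ)) : ℤ_[p]) =
          (p : ℤ_[p]) ^ k * (- ∑ j, ((mat (aeval (uE f) P) i j : ℤ) : ℤ_[p]) * z j) := by
        have h4 : ∀ j, ((mat (aeval (uE f) P) i j : ℤ) : ℤ_[p]) * y j =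
            ((mat (aeval (uE f) P) i j : ℤ) : ℤ_[p]) * ((n j : ℤ) : ℤ_[p]) +
            (p : ℤ_[p]) ^ k * (((mat (aeval (uE f) P) i j : ℤ) : ℤ_[p]) * z j) := by
          intro j
          conv_lhs => rw [hz j]
          ring
        rw [Finset.sum_congr rfl fun j _ => h4 j, Finset.sum_add_distrib, ← Finset.mul_sum] at h2
        push_cast
        linear_combination h2
      have h5 : ‖(((∑ j, mat (aeval (uE f) P) i j * n j : ℤ)) : ℤ_[p])‖ ≤ (p : ℝ) ^ (-(k : ℤ)) := by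
        rw [h3, PadicInt.norm_le_pow_iff_mem_span_pow, Ideal.mem_span_singleton]
        exact dvd_mul_right _ _
      have h6 := PadicInt.norm_int_le_pow_iff_dvd.1 h5
      exact_mod_cast h6
    obtain ⟨w, hw⟩ := power_of_dvd hroot _ k hdvd
    exact ⟨w, hw⟩
  · intro ε hε
    have hfin : Finite T := inferInstance
    have : Fintype T := Fintype.ofFinite T
    set C : ℝ := ∑ σ : T, ∑ i, ‖L ((σ : B →+* ℂ_[p]) ((Units.fundSystem B i : 𝓞 B) : B))‖ with hC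
    have hC0 : 0 ≤ C := by positivity
    obtain ⟨N, hN⟩ := pow_unbounded_of_one_lt ((C + 1) / ε) hp1
    have hpN : (0 : ℝ) < (p : ℝ) ^ N := by positivity
    have hN' : C / (p : ℝ) ^ N < ε := by
      rw [div_lt_iff₀ hε] at hN
      rw [div_lt_iff₀ hpN]
      linarith
    have hdiv : ∀ i, ∃ z : ℤ, (((y i).appr (N + k) : ℕ) : ℤ) = n i + p ^ k * z := by
      intro i
      obtain ⟨q, hq⟩ := PadicInt.dvd_appr_sub_appr (y i) k (N + k) (by omega)
      have h1 := PadicInt.appr_mono (y i) (show k ≤ N + k by omega)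
      refine ⟨q, ?_⟩
      have h2 : (y i).appr (N + k) = (y i).appr k + p ^ k * q := by omega
      rw [h2]
      push_cast
      rfl
    choose z hz using hdiv
    refine ⟨(uz z).toMul, fun σ hσ => ?_⟩
    rw [log_dec hL σ]
    have h5 : ∀ j, cz B j (Additive.ofMul ((uz n).toMul * ((uz z).toMul) ^ p ^ k)) =
        (((y j).appr (N + k) : ℕ) : ℤ) := by
      intro j
      have h6 : Additive.ofMul ((uz n).toMul * ((uz z).toMul) ^ p ^ k) = uz n + p ^ k • uz z := rfl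
      rw [h6, map_add, map_nsmul, cz_uz, cz_uz, nsmul_eq_mul, hz]
      push_cast
      rfl
    simp only [h5]
    choose q hq using happ (N + k)
    have h7 : ∑ j, (((((y j).appr (N + k) : ℕ) : ℤ)) : ℂ_[p]) *
        L (σ ((Units.fundSystem B j : 𝓞 B) : B)) =
        - ((p : ℂ_[p]) ^ (N + k) * ∑ j, algebraMap ℚ_[p] ℂ_[p] ((q j : ℤ_[p]) : ℚ_[p]) *
          L (σ ((Units.fundSystem B j : 𝓞 B) : B))) := by
      have h8 : ∀ j, algebraMap ℚ_[p] ℂ_[p] ((y j : ℤ_[p]) : ℚ_[p]) *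
          L (σ ((Units.fundSystem B j : 𝓞 B) : B)) =
          (((((y j).appr (N + k) : ℕ) : ℤ)) : ℂ_[p]) * L (σ ((Units.fundSystem B j : 𝓞 B) : B)) +
          (p : ℂ_[p]) ^ (N + k) * (algebraMap ℚ_[p] ℂ_[p] ((q j : ℤ_[p]) : ℚ_[p]) *
          L (σ ((Units.fundSystem B j : 𝓞 B) : B))) := by
        intro j
        have h9 : algebraMap ℚ_[p] ℂ_[p] ((y j : ℤ_[p]) : ℚ_[p]) =
            (((((y j).appr (N + k) : ℕ) : ℤ)) : ℂ_[p]) +
            (p : ℂ_[p]) ^ (N + k) * algebraMap ℚ_[p] ℂ_[p] ((q j : ℤ_[p]) : ℚ_[p]) := by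
          conv_lhs => rw [hq j]
          rw [PadicInt.coe_add, PadicInt.coe_mul, PadicInt.coe_pow, PadicInt.coe_natCast,
            PadicInt.coe_intCast, map_add, map_mul, map_pow, map_natCast, map_intCast]
        rw [h9]
        ring
      have h10 := hlog σ hσ
      rw [Finset.sum_congr rfl fun j _ => h8 j, Finset.sum_add_distrib, ← Finset.mul_sum] at h10
      linear_combination h10
    rw [h7, norm_neg, norm_mul, norm_pow, Pool.Agent.L7h28.PX.norm_p']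
    have h11 : ‖∑ j, algebraMap ℚ_[p] ℂ_[p] ((q j : ℤ_[p]) : ℚ_[p]) *
        L (σ ((Units.fundSystem B j : 𝓞 B) : B))‖ ≤ C := by
      refine (norm_sum_le _ _).trans ?_
      refine le_trans (Finset.sum_le_sum (g := fun j => ‖L (σ ((Units.fundSystem B j : 𝓞 B) : B))‖)
        fun j _ => ?_) ?_
      · rw [norm_mul, Pool.Agent.L7h28.PX.norm_alg]
        exact mul_le_of_le_one_left (norm_nonneg _) (PadicInt.norm_le_one (q j))
      · exact Finset.single_le_sum (f := fun σ : T => ∑ i, ‖L ((σ : B →+* ℂ_[p])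
          ((Units.fundSystem B i : 𝓞 B) : B))‖) (fun σ _ => by positivity)
          (Finset.mem_univ (⟨σ, hσ⟩ : T))
    calc ((p : ℝ)⁻¹) ^ (N + k) * _ ≤ ((p : ℝ)⁻¹) ^ (N + k) * C :=
          mul_le_mul_of_nonneg_left h11 (by positivity)
      _ ≤ ((p : ℝ)⁻¹) ^ N * C := by
          refine mul_le_mul_of_nonneg_right ?_ hC0
          exact pow_le_pow_of_le_one (by positivity) (inv_le_one_of_one_le₀ hp1.le) (by omega)
      _ = C / (p : ℝ) ^ N := by rw [inv_pow, div_eq_mul_inv, mul_comm]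
      _ < ε := hN'

/-- the Selmer group modulo `p^m` also controls the base field -/
theorem base_sel (hRAT : S_RAT) (hTINY : S_TINY)
    (B : Type) [Field B] [NumberField B] {L : ℂ_[p] → ℂ_[p]} (hL : IsIwasawaLog p L)
    (S : Set (B →+* ℂ_[p])) (hSne : S.Nonempty)
    (hcl : ∀ τ τ' : B →+* ℂ_[p], (∀ y, ‖τ' y‖ = ‖τ y‖) → τ ∈ S → τ' ∈ S)
    (hμ : ∀ τ ∈ S, ∀ ζ ∈ cl τ, ζ ^ p = 1 → ζ = 1) (δB : B ≃+* B) (t m : ℕ)
    (hB : SelLt p S δB t m) : Base hL S δB t := by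
  classical
  intro x hxP hxL
  by_contra hx0
  obtain ⟨τ0, hτ0⟩ := hSne
  have hμB := noMu_of_cl τ0 (hμ τ0 hτ0)
  obtain ⟨u, hu1, ⟨w, hw⟩, hu3⟩ := kernel_unit hRAT hμB hL S hcl (δB : B →+* B) (cyclotomic t ℤ) x hx0
    hxL hxP m
  have hfin : Finite S := inferInstance
  have : Fintype S := Fintype.ofFinite S
  choose ε hε0 hε using fun τ : S => hTINY p B L hL τ (hμ τ τ.2) m
  obtain ⟨δ, hδ0, hδ⟩ : ∃ δ : ℝ, 0 < δ ∧ ∀ τ : S, δ ≤ ε τ := by
    have hne : Nonempty S := ⟨⟨τ0, hτ0⟩⟩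
    obtain ⟨τ1, h1⟩ := Finite.exists_min ε
    exact ⟨ε τ1, hε0 τ1, h1⟩
  obtain ⟨w', hw'⟩ := hu3 δ hδ0
  set v : (𝓞 B)ˣ := u * w' ^ p ^ m with hv
  let ν : (𝓞 B)ˣ →* Bˣ := Units.map (algebraMap (𝓞 B) B : 𝓞 B →* B)
  have hνc : ∀ a : (𝓞 B)ˣ, ((ν a : Bˣ) : B) = ((a : 𝓞 B) : B) := fun a => rfl
  have hpw : ∀ (a : (𝓞 B)ˣ) (i : ℕ), (((a ^ i : (𝓞 B)ˣ) : 𝓞 B) : B) = ((a : 𝓞 B) : B) ^ i :=
    fun a i => (congrArg (algebraMap (𝓞 B) B) (Units.val_pow_eq_pow_val a i)).trans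
      (map_pow (algebraMap (𝓞 B) B) _ _)
  -- the powers of `v` are in the Selmer group
  have hsel : ∀ i : ℕ, InSel p S δB t m (ν (v ^ i)) := by
    intro i
    refine ⟨?_, ?_, ?_⟩
    · intro v'
      refine ⟨1, ?_⟩
      rw [map_one, one_pow]
      exact (v'.valuation_eq_one_iff_notMem (K := B)).2 fun h =>
        v'.isPrime.ne_top (Ideal.eq_top_of_isUnit_mem _ h (v ^ i).isUnit)
    · intro τ hτ
      obtain ⟨b, hb, hb'⟩ := hε ⟨τ, hτ⟩ v (lt_of_lt_of_le (hw' τ hτ) (hδ ⟨τ, hτ⟩))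
      refine ⟨b ^ i, pow_mem hb i, ?_⟩
      rw [hνc, ← pow_mul, mul_comm, pow_mul, hb', hpw, map_pow]
    · have hν : ∀ x, nuL B (uE (δB : B →+* B) x) = bE (δB : B →+* B) (nuL B x) := fun x => by
        apply Additive.toMul.injective
        apply Units.ext
        rfl
      refine ⟨ν ((w * (aeval (uE (δB : B →+* B)) (cyclotomic t ℤ)
        (Additive.ofMul w')).toMul) ^ i), ?_⟩
      have h1 : aeval (uE (δB : B →+* B)) (cyclotomic t ℤ) (Additive.ofMul (v ^ i)) =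
          p ^ m • Additive.ofMul ((w * (aeval (uE (δB : B →+* B)) (cyclotomic t ℤ)
            (Additive.ofMul w')).toMul) ^ i) := by
        have h2 : (Additive.ofMul v : Additive (𝓞 B)ˣ) =
          Additive.ofMul u + p ^ m • Additive.ofMul w' := rfl
        rw [ofMul_pow, map_nsmul, h2, map_add, map_nsmul, hw, ofMul_pow, ofMul_mul,
          smul_comm (p ^ m) i]
        congr 1
        exact (nsmul_add _ _ _).symm
      have h3 := congrArg (nuL B) h1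
      rw [aeval_comm (nuL B) _ _ hν, map_nsmul] at h3
      exact h3
  -- congruences
  have hpm : 0 < p ^ m := pow_pos hp.out.pos _
  have hcong : ∀ i i' : ℕ, i < p ^ m → i' < p ^ m → (∃ c : Bˣ, ν (v ^ i) = ν (v ^ i') * c ^ p ^ m) →
      i = i' := by
    intro i i' hi hi' ⟨c, hc⟩
    by_contra hne
    have hc' : (c : B) ^ p ^ m = (((v ^ i * (v ^ i')⁻¹ : (𝓞 B)ˣ) : 𝓞 B) : B) := by
      have h1 : c ^ p ^ m = ν (v ^ i * (v ^ i')⁻¹) := by
        rw [map_mul, map_inv, hc, mul_right_comm, mul_inv_cancel, one_mul]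
      rw [← hνc, ← h1, Units.val_pow_eq_pow_val]
    have hi1 : IsIntegral ℤ (c : B) := by
      refine IsIntegral.of_pow hpm ?_
      rw [hc']
      exact RingOfIntegers.isIntegral_coe _
    have hi2 : IsIntegral ℤ ((c⁻¹ : Bˣ) : B) := by
      refine IsIntegral.of_pow hpm ?_
      have h5 : ((c⁻¹ : Bˣ) : B) ^ p ^ m = ((((v ^ i * (v ^ i')⁻¹)⁻¹ : (𝓞 B)ˣ) : 𝓞 B) : B) := by
        rw [Units.val_inv_eq_inv_val, inv_pow, hc']
        have h6 : (((v ^ i * (v ^ i')⁻¹ : (𝓞 B)ˣ) : 𝓞 B) : B) *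
            ((((v ^ i * (v ^ i')⁻¹)⁻¹ : (𝓞 B)ˣ) : 𝓞 B) : B) = 1 := by
          rw [← map_mul, ← Units.val_mul, mul_inv_cancel, Units.val_one, map_one]
        exact inv_eq_of_mul_eq_one_right h6
      rw [h5]
      exact RingOfIntegers.isIntegral_coe _
    obtain ⟨q, hq⟩ : ∃ q : (𝓞 B)ˣ, ((q : 𝓞 B) : B) = (c : B) :=
      ⟨⟨⟨(c : B), hi1⟩, ⟨((c⁻¹ : Bˣ) : B), hi2⟩, by
        apply RingOfIntegers.ext
        exact c.mul_inv, by
        apply RingOfIntegers.ext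
        exact c.inv_mul⟩, rfl⟩
    have hvw : v ^ i = v ^ i' * q ^ p ^ m := by
      have h1 : v ^ i * (v ^ i')⁻¹ = q ^ p ^ m := by
        apply Units.ext
        apply RingOfIntegers.ext
        rw [← hc', hpw]
        exact congrArg (fun z => z ^ p ^ m) hq.symm
      rw [← h1, mul_comm (v ^ i), mul_inv_cancel_left]
    refine hu1 i i' hi hi' hne ⟨w' ^ i' * (w' ^ i)⁻¹ * q, ?_⟩
    rw [hv, mul_pow, mul_pow] at hvw
    have e1 : (w' ^ p ^ m) ^ i = (w' ^ i) ^ p ^ m := by rw [← pow_mul, ← pow_mul, mul_comm]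
    have e2 : (w' ^ p ^ m) ^ i' = (w' ^ i') ^ p ^ m := by rw [← pow_mul, ← pow_mul, mul_comm]
    rw [e1, e2] at hvw
    have e3 : u ^ i = u ^ i' * (w' ^ i') ^ p ^ m * q ^ p ^ m * ((w' ^ i) ^ p ^ m)⁻¹ := by
      rw [← hvw, mul_inv_cancel_right]
    rw [e3, mul_pow, mul_pow, inv_pow]
    simp only [mul_assoc]
    congr 2
    exact mul_comm _ _
  have hinj : Set.InjOn (fun i : ℕ => ν (v ^ i)) (Finset.range (p ^ m) : Set ℕ) := by
    intro i hi i' hi' h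
    rw [Finset.coe_range, Set.mem_Iio] at hi hi'
    exact hcong i i' hi hi' ⟨1, by rw [one_pow, mul_one]; exact h⟩
  have h1 := hB ((Finset.range (p ^ m)).image fun i => ν (v ^ i)) (fun a ha => by
      rw [Finset.mem_image] at ha
      obtain ⟨i, -, rfl⟩ := ha
      exact hsel i) (fun a ha a' ha' hne hc => by
      rw [Finset.mem_image] at ha ha'
      obtain ⟨i, hi, rfl⟩ := ha
      obtain ⟨i', hi', rfl⟩ := ha'
      rw [Finset.mem_range] at hi hi'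
      exact hne (by rw [hcong i i' hi hi' hc]))
  rw [Finset.card_image_of_injOn hinj, Finset.card_range] at h1
  exact lt_irrefl _ h1

end Pool.Agent.L7h1.PX
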