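import Pool.Agent.L7h1.PX.Stm3

/-!
# Project PX: the core theorem for a cyclic extension `H/B`
-/

set_option autoImplicit false
set_option linter.unusedSectionVars false

namespace Pool.Agent.L7h1.PX

open NumberField TensorProduct Pool.Agent.W289.SL Module IsDedekindDomain Polynomial

variable {p : ℕ} [hp : Fact p.Prime]

/-- the embeddings of `H` over `S` -/
def Ov {B : Type} (H : Type) [Field B] [Field H] [Algebra B H] (S : Set (B →+* ℂ_[p])) :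
    Set (H →+* ℂ_[p]) := {σ | σ.comp (algebraMap B H) ∈ S}

lemma mem_cl {H : Type} [Field H] (σ : H →+* ℂ_[p]) (x : H) : σ x ∈ cl σ :=
  Subfield.le_topologicalClosure _ ⟨x, rfl⟩

lemma exists_over {B H : Type} [Field B] [NumberField B] [Field H] [NumberField H] [Algebra B H]
    (τ : B →+* ℂ_[p]) : ∃ σ : H →+* ℂ_[p], σ.comp (algebraMap B H) = τ := by
  let := τ.toAlgebra
  have : Algebra.IsAlgebraic B H := Algebra.IsAlgebraic.tower_top (K := ℚ) B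
  let φ : H →ₐ[B] ℂ_[p] := IsAlgClosed.lift
  exact ⟨φ, φ.comp_algebraMap⟩

lemma noMu_of_cl {H : Type} [Field H] (σ : H →+* ℂ_[p]) (h : ∀ ζ ∈ cl σ, ζ ^ p = 1 → ζ = 1) :
    ∀ ζ : H, ζ ^ p = 1 → ζ = 1 := by
  intro ζ hζ
  have h1 := h (σ ζ) (mem_cl σ ζ) (by rw [← map_pow, hζ, map_one])
  apply σ.injective
  rw [h1, map_one]

/-- the hypothesis at the base: the kernel of the logarithms over `S` on the part of the characters
of order `t` is zero -/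
def Base {B : Type} [Field B] [NumberField B] {L : ℂ_[p] → ℂ_[p]} (hL : IsIwasawaLog p L)
    (S : Set (B →+* ℂ_[p])) (δ : B ≃+* B) (t : ℕ) : Prop :=
  ∀ x : UM p B, aeval (actLin p (δ : B →+* B)) (cyclotomic t ℤ) x = 0 →
    (∀ τ ∈ S, logLin hL τ x = 0) → x = 0

/-- the kernel of the logarithms is not zero at the level `j` -/
def Lev {H : Type} [Field H] [NumberField H] {L : ℂ_[p] → ℂ_[p]} (hL : IsIwasawaLog p L)
    (T : Set (H →+* ℂ_[p])) (γ δ : H ≃+* H) (t j : ℕ) : Prop :=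
  ∃ x : UM p H, x ≠ 0 ∧ (∀ σ ∈ T, logLin hL σ x = 0) ∧
    aeval (actLin p (γ : H →+* H)) (cyclotomic (p ^ j) ℤ) x = 0 ∧
    aeval (actLin p (δ : H →+* H)) (cyclotomic t ℤ) x = 0

/-- Selmer elements of `B` from levels of the kernel over `H` -/
theorem core_aux (hUNI : S_UNI) (hDES : S_DES) (t : ℕ) (c₁ : ℕ)
    (hc₁ : ∀ (B H : Type) [Field B] [NumberField B] [Field H] [NumberField H] [Algebra B H]
      [IsGalois B H] (n : ℕ), finrank B H = p ^ n → ∀ γ : H ≃ₐ[B] H,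
      (∀ g : H ≃ₐ[B] H, ∃ i : ℕ, g = γ ^ i) → ∀ (δ : H ≃+* H) (δB : B ≃+* B),
      (∀ b, δ (algebraMap B H b) = algebraMap B H (δB b)) → (∀ x, δB^[t] x = x) →
      ∀ (L : ℂ_[p] → ℂ_[p]), IsIwasawaLog p L → ∀ (S : Set (B →+* ℂ_[p])), S.Nonempty →
      (∀ τ ∈ S, ∀ ζ ∈ cl τ, ζ ^ p = 1 → ζ = 1) →
      ∀ (Q : Finset (HeightOneSpectrum (𝓞 B))), (∀ w : HeightOneSpectrum (𝓞 H), Okp p S δB t Q w) →
      ∀ (k : ℕ) (y : (𝓞 H)ˣ),
      (∃ w : (𝓞 H)ˣ, γ ((y : 𝓞 H) : H) = ((y : 𝓞 H) : H) * ((w : 𝓞 H) : H) ^ p ^ k) →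
      (∃ w : (𝓞 H)ˣ, aeval (uE (δ : H →+* H)) (cyclotomic t ℤ) (Additive.ofMul y) =
        p ^ k • Additive.ofMul w) →
      (∀ ε : ℝ, 0 < ε → ∃ w : (𝓞 H)ˣ, ∀ σ : H →+* ℂ_[p], σ.comp (algebraMap B H) ∈ S →
        ‖L (σ (((y * w ^ p ^ k : (𝓞 H)ˣ) : 𝓞 H) : H))‖ < ε) →
      ∃ (a : Bˣ) (z : Hˣ), ((y : 𝓞 H) : H) = algebraMap B H (a : B) * (z : H) ^ p ^ k ∧
        (∀ v : HeightOneSpectrum (𝓞 B), v ∉ Q → Dvd v (p ^ k) (a : B)) ∧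
        (∀ v : HeightOneSpectrum (𝓞 B), Dvd v (p ^ (k - c₁)) (a : B)) ∧
        (∀ τ ∈ S, ∃ b ∈ cl τ, b ^ p ^ k = τ (a : B)) ∧
        ∃ c : Bˣ, aeval (bE (δB : B →+* B)) (cyclotomic t ℤ) (Additive.ofMul a) =
          p ^ k • Additive.ofMul c)
    (B : Type) [Field B] [NumberField B] {L : ℂ_[p] → ℂ_[p]} (hL : IsIwasawaLog p L)
    (S : Set (B →+* ℂ_[p])) (hSne : S.Nonempty)
    (hcl : ∀ τ τ' : B →+* ℂ_[p], (∀ y, ‖τ' y‖ = ‖τ y‖) → τ ∈ S → τ' ∈ S)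
    (hμ : ∀ τ ∈ S, ∀ ζ ∈ cl τ, ζ ^ p = 1 → ζ = 1) (δB : B ≃+* B)
    (hδB : ∀ x, δB^[t] x = x) (Q : Finset (HeightOneSpectrum (𝓞 B)))
    (H : Type) [Field H] [NumberField H] [Algebra B H] [IsGalois B H] (n : ℕ)
    (hn : finrank B H = p ^ n) (γ : H ≃ₐ[B] H) (hγ : ∀ g : H ≃ₐ[B] H, ∃ i : ℕ, g = γ ^ i)
    (δ : H ≃+* H) (hδ : ∀ b, δ (algebraMap B H b) = algebraMap B H (δB b))
    (hδγ : ∀ x, γ (δ x) = δ (γ x)) (hok : ∀ w : HeightOneSpectrum (𝓞 H), Okp p S δB t Q w)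
    (J : Finset ℕ) (hJ : ∀ j ∈ J, 1 ≤ j ∧ Lev hL (Ov H S) (γ : H ≃+* H) δ t j) :
    ∃ Z : Finset Bˣ, p ^ J.card ≤ Z.card ∧
      (∀ a ∈ Z, (∀ v : HeightOneSpectrum (𝓞 B), v ∉ Q → Dvd v (p ^ J.card) (a : B)) ∧
        (∀ v : HeightOneSpectrum (𝓞 B), Dvd v (p ^ (J.card - c₁)) (a : B)) ∧
        (∀ τ ∈ S, ∃ b ∈ cl τ, b ^ p ^ J.card = τ (a : B)) ∧
        ∃ c : Bˣ, aeval (bE (δB : B →+* B)) (cyclotomic t ℤ) (Additive.ofMul a) =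
          p ^ J.card • Additive.ofMul c) ∧
      ∀ a ∈ Z, ∀ a' ∈ Z, a ≠ a' → ¬ ∃ c : Bˣ, a = a' * c ^ p ^ J.card := by
  classical
  obtain ⟨τ0, hτ0⟩ := hSne
  obtain ⟨σ0, hσ0⟩ := exists_over (H := H) τ0
  have hμH := noMu_of_cl σ0 (hDES p B H n hn σ0 (by rw [hσ0]; exact hμ τ0 hτ0)).1
  have hγn : ∀ x, ((γ : H ≃+* H) : H → H)^[p ^ n] x = x := by
    intro x
    have h1 : γ ^ p ^ n = 1 := by
      rw [← hn, ← IsGalois.card_aut_eq_finrank B H]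
      exact pow_card_eq_one'
    have h2 : ∀ m : ℕ, ((γ : H ≃+* H) : H → H)^[m] x = (γ ^ m) x := by
      intro m
      induction m with
      | zero => rfl
      | succ m ih =>
        rw [Function.iterate_succ_apply', ih, pow_succ']
        rfl
    rw [h2, h1]
    rfl
  obtain ⟨Y, hY1, hY2, hY3⟩ := hUNI p H hμH L hL (Ov H S) (γ : H ≃+* H) δ n t hγn hδγ
    (fun σ σ' h hσ => hcl _ _ (fun y => h _) hσ) (fun σ hσ => by
      change (σ.comp ((γ : H ≃+* H) : H →+* H)).comp (algebraMap B H) ∈ S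
      have h1 : (σ.comp ((γ : H ≃+* H) : H →+* H)).comp (algebraMap B H) =
          σ.comp (algebraMap B H) := by
        ext b
        change σ (γ (algebraMap B H b)) = σ (algebraMap B H b)
        rw [γ.commutes]
      rw [h1]
      exact hσ) J hJ
  have key := fun y (hy : y ∈ Y) => hc₁ B H n hn γ hγ δ δB hδ hδB L hL S ⟨τ0, hτ0⟩ hμ Q hok J.card y
    (hY3 y hy).1 (hY3 y hy).2.1 (hY3 y hy).2.2
  choose a z hyaz hk1 hk2 hk3 hk4 using key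
  -- congruent elements
  have hcong : ∀ y (hy : y ∈ Y) y' (hy' : y' ∈ Y) (c : Bˣ), a y hy = a y' hy' * c ^ p ^ J.card →
      y = y' := by
    intro y hy y' hy' c hc
    by_contra hne
    apply hY2 y hy y' hy' hne
    have h1 := hyaz y hy
    have h2 := hyaz y' hy'
    set w : H := algebraMap B H (c : B) * (z y hy : H) / (z y' hy' : H) with hw
    have hz0 : (z y' hy' : H) ≠ 0 := (z y' hy').ne_zero
    have h3 : ((y : 𝓞 H) : H) = ((y' : 𝓞 H) : H) * w ^ p ^ J.card := by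
      rw [h1, h2, hc, hw, Units.val_mul, Units.val_pow_eq_pow_val, map_mul, map_pow, div_pow, mul_pow]
      field_simp
    have hpk : 0 < p ^ J.card := pow_pos hp.out.pos _
    have hw0 : w ≠ 0 := by
      rw [hw]
      exact div_ne_zero (mul_ne_zero ((_root_.map_ne_zero _).2 c.ne_zero) (z y hy).ne_zero) hz0
    have hy0 : ((y' : 𝓞 H) : H) ≠ 0 := by
      exact_mod_cast (y'.ne_zero)
    have h4 : w ^ p ^ J.card = (((y * y'⁻¹ : (𝓞 H)ˣ) : 𝓞 H) : H) := by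
      have h5 : (((y * y'⁻¹ : (𝓞 H)ˣ) : 𝓞 H) : H) * ((y' : 𝓞 H) : H) = ((y : 𝓞 H) : H) := by
        rw [← map_mul, ← Units.val_mul, inv_mul_cancel_right]
      have h6 := h3
      rw [← h5, mul_comm] at h6
      exact (mul_left_cancel₀ hy0 h6).symm
    have hi1 : IsIntegral ℤ w := by
      refine IsIntegral.of_pow hpk ?_
      rw [h4]
      exact RingOfIntegers.isIntegral_coe _
    have hi2 : IsIntegral ℤ w⁻¹ := by
      refine IsIntegral.of_pow hpk ?_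
      have h5 : w⁻¹ ^ p ^ J.card = (((y' * y⁻¹ : (𝓞 H)ˣ) : 𝓞 H) : H) := by
        rw [inv_pow, h4]
        have h6 : (((y * y'⁻¹ : (𝓞 H)ˣ) : 𝓞 H) : H) * (((y' * y⁻¹ : (𝓞 H)ˣ) : 𝓞 H) : H) = 1 := by
          rw [← map_mul, ← Units.val_mul]
          have : y * y'⁻¹ * (y' * y⁻¹) = 1 := by group
          rw [this, Units.val_one, map_one]
        exact inv_eq_of_mul_eq_one_right h6
      rw [h5]
      exact RingOfIntegers.isIntegral_coe _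
    refine ⟨⟨⟨w, hi1⟩, ⟨w⁻¹, hi2⟩, ?_, ?_⟩, ?_⟩
    · apply RingOfIntegers.ext
      exact mul_inv_cancel₀ hw0
    · apply RingOfIntegers.ext
      exact inv_mul_cancel₀ hw0
    · apply Units.ext
      apply RingOfIntegers.ext
      exact h3
  have hinj : Function.Injective fun y : {x // x ∈ Y} => a y.1 y.2 := by
    rintro ⟨y, hy⟩ ⟨y', hy'⟩ h
    apply Subtype.ext
    refine hcong y hy y' hy' 1 ?_
    rw [one_pow, mul_one]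
    exact h
  refine ⟨Y.attach.image fun y => a y.1 y.2, ?_, ?_, ?_⟩
  · rw [Finset.card_image_of_injective _ hinj, Finset.card_attach]
    exact hY1
  · intro b hb
    rw [Finset.mem_image] at hb
    obtain ⟨⟨y, hy⟩, -, rfl⟩ := hb
    exact ⟨hk1 y hy, hk2 y hy, hk3 y hy, hk4 y hy⟩
  · intro b hb b' hb' hne hc
    rw [Finset.mem_image] at hb hb'
    obtain ⟨⟨y, hy⟩, -, rfl⟩ := hb
    obtain ⟨⟨y', hy'⟩, -, rfl⟩ := hb'
    obtain ⟨c, hc⟩ := hc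
    apply hne
    have h1 := hcong y hy y' hy' c hc
    subst h1
    rfl

/-- **The core theorem.** -/
theorem core (hUNI : S_UNI) (hDOWN : S_DOWN) (hFINQ : S_FINQ) (hDES : S_DES)
    (B : Type) [Field B] [NumberField B] {L : ℂ_[p] → ℂ_[p]} (hL : IsIwasawaLog p L)
    (S : Set (B →+* ℂ_[p])) (hSne : S.Nonempty)
    (hcl : ∀ τ τ' : B →+* ℂ_[p], (∀ y, ‖τ' y‖ = ‖τ y‖) → τ ∈ S → τ' ∈ S)
    (hμ : ∀ τ ∈ S, ∀ ζ ∈ cl τ, ζ ^ p = 1 → ζ = 1) (δB : B ≃+* B) (t : ℕ) (ht : 0 < t)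
    (hδB : ∀ x, δB^[t] x = x) (hB : Base hL S δB t) (Q : Finset (HeightOneSpectrum (𝓞 B))) :
    ∃ e : ℕ, ∀ (H : Type) [Field H] [NumberField H] [Algebra B H] [IsGalois B H] (n : ℕ),
      finrank B H = p ^ n → ∀ γ : H ≃ₐ[B] H, (∀ g : H ≃ₐ[B] H, ∃ i : ℕ, g = γ ^ i) →
      ∀ δ : H ≃+* H, (∀ b, δ (algebraMap B H b) = algebraMap B H (δB b)) →
      (∀ x, γ (δ x) = δ (γ x)) → (∀ w : HeightOneSpectrum (𝓞 H), Okp p S δB t Q w) →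
      ∀ J : Finset ℕ, (∀ j ∈ J, 1 ≤ j ∧ Lev hL (Ov H S) (γ : H ≃+* H) δ t j) → J.card ≤ e := by
  obtain ⟨τ0, hτ0⟩ := hSne
  have hμB := noMu_of_cl τ0 (hμ τ0 hτ0)
  obtain ⟨c₁, hc₁⟩ := hDOWN p t ht
  obtain ⟨C, hC⟩ := hFINQ p B hμB L hL S δB t ht hδB hB Q c₁
  refine ⟨C, fun H _ _ _ _ n hn γ hγ δ hδ hδγ hok J hJ => ?_⟩
  obtain ⟨Z, hZ1, hZ2, hZ3⟩ := core_aux hUNI hDES t c₁ hc₁ B hL S ⟨τ0, hτ0⟩ hcl hμ δB hδB Q H n hn γ
    hγ δ hδ hδγ hok J hJ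
  have hcard := hC J.card Z hZ2 hZ3
  have h1 : J.card < p ^ J.card := Nat.lt_pow_self hp.out.one_lt
  omega

/-- `a` belongs to the Selmer group modulo `p^m` -/
def InSel {B : Type} [Field B] [NumberField B] (p : ℕ) [Fact p.Prime] (S : Set (B →+* ℂ_[p]))
    (δ : B ≃+* B) (t m : ℕ) (a : Bˣ) : Prop :=
  (∀ v : HeightOneSpectrum (𝓞 B), Dvd v (p ^ m) (a : B)) ∧
    (∀ τ ∈ S, ∃ b ∈ cl τ, b ^ p ^ m = τ (a : B)) ∧
    ∃ c : Bˣ, aeval (bE (δ : B →+* B)) (cyclotomic t ℤ) (Additive.ofMul a) = p ^ m • Additive.ofMul c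

/-- the Selmer group modulo `p^m` has less than `p^m` elements -/
def SelLt {B : Type} [Field B] [NumberField B] (p : ℕ) [Fact p.Prime] (S : Set (B →+* ℂ_[p]))
    (δ : B ≃+* B) (t m : ℕ) : Prop :=
  ∀ Z : Finset Bˣ, (∀ a ∈ Z, InSel p S δ t m a) →
    (∀ a ∈ Z, ∀ a' ∈ Z, a ≠ a' → ¬ ∃ c : Bˣ, a = a' * c ^ p ^ m) → Z.card < p ^ m

/-- **Less than `m` exceptions if the Selmer group modulo `p^m` has less than `p^m` elements.** -/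
theorem core_sel (hUNI : S_UNI) (hDOWN : S_DOWN) (hDES : S_DES)
    (B : Type) [Field B] [NumberField B] {L : ℂ_[p] → ℂ_[p]} (hL : IsIwasawaLog p L)
    (S : Set (B →+* ℂ_[p])) (hSne : S.Nonempty)
    (hcl : ∀ τ τ' : B →+* ℂ_[p], (∀ y, ‖τ' y‖ = ‖τ y‖) → τ ∈ S → τ' ∈ S)
    (hμ : ∀ τ ∈ S, ∀ ζ ∈ cl τ, ζ ^ p = 1 → ζ = 1) (δB : B ≃+* B) (t : ℕ) (ht : 0 < t)
    (hδB : ∀ x, δB^[t] x = x) (m : ℕ) (hB : SelLt p S δB t m)
    (H : Type) [Field H] [NumberField H] [Algebra B H] [IsGalois B H] (n : ℕ)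
    (hn : finrank B H = p ^ n) (γ : H ≃ₐ[B] H) (hγ : ∀ g : H ≃ₐ[B] H, ∃ i : ℕ, g = γ ^ i)
    (δ : H ≃+* H) (hδ : ∀ b, δ (algebraMap B H b) = algebraMap B H (δB b))
    (hδγ : ∀ x, γ (δ x) = δ (γ x)) (hok : ∀ w : HeightOneSpectrum (𝓞 H), Okp p S δB t ∅ w)
    (J : Finset ℕ) (hJ : ∀ j ∈ J, 1 ≤ j ∧ Lev hL (Ov H S) (γ : H ≃+* H) δ t j) : J.card < m := by
  classical
  by_contra hm
  obtain ⟨J', hJ'1, hJ'2⟩ := Finset.exists_subset_card_eq (not_lt.1 hm)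
  obtain ⟨c₁, hc₁⟩ := hDOWN p t ht
  obtain ⟨Z, hZ1, hZ2, hZ3⟩ := core_aux hUNI hDES t c₁ hc₁ B hL S hSne hcl hμ δB hδB ∅ H n hn γ
    hγ δ hδ hδγ hok J' (fun i hi => hJ i (hJ'1 hi))
  rw [hJ'2] at hZ1 hZ2 hZ3
  have h1 := hB Z (fun a ha => ⟨fun v => (hZ2 a ha).1 v (Finset.notMem_empty v), (hZ2 a ha).2.2.1,
    (hZ2 a ha).2.2.2⟩) hZ3
  omega

end Pool.Agent.L7h1.PX
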