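import Pool.Agent.L7h1.PX.Base0
import Pool.Agent.L7h97.PX.Abl
import Pool.Agent.L7h97.PX.Dsc
import Pool.Agent.L7h97.PX.Ramd
import Pool.Agent.L7h97.PX.Avg
import Pool.Agent.L7h28.PX.Finq
import Pool.Agent.L7h28.PX.Vfin
import Pool.Agent.L7h30.PX.Des
import Pool.Agent.W289.SL.LogEx

/-!
# Project PX: the pieces of the final theorem
-/

set_option autoImplicit false
set_option linter.unusedSectionVars false

namespace Pool.Agent.L7h1.PX

open NumberField TensorProduct Pool.Agent.W289.SL Module IsDedekindDomain Polynomial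
open Pool.Agent.W254.PA (exists_theta)
open Pool.Agent.W332.SL6 (exists_aut)

variable {p : ℕ} [hp : Fact p.Prime]

theorem s_FINQ' : S_FINQ := Pool.Agent.L7h28.PX.s_FINQ
  (Pool.Agent.L7h28.PX.s_VFIN Pool.Agent.L7h30.PX.s_LOGB)

section

variable {K B : Type} [Field K] [NumberField K] [Field B] [NumberField B] [Algebra K B] [IsGalois K B]

/-- the `S`-Leopoldt statement for the faithful characters and the Selmer groups -/
theorem base_iff (S : Set (K →+* ℂ_[p])) (hSne : S.Nonempty)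
    (hcl : ∀ τ τ' : K →+* ℂ_[p], (∀ y, ‖τ' y‖ = ‖τ y‖) → τ ∈ S → τ' ∈ S)
    (hμ : ∀ τ ∈ SB B S, ∀ ζ ∈ cl τ, ζ ^ p = 1 → ζ = 1) (δB : B ≃ₐ[K] B)
    (hgen : ∀ g : B ≃ₐ[K] B, g ∈ Subgroup.zpowers δB) :
    (∀ χ : (B ≃ₐ[K] B) →* ℂ_[p]ˣ, IsPrimitiveRoot (χ δB) (orderOf δB) → SigmaLeopoldt p K B S χ) ↔
      ∃ m, SelLt p (SB B S) (δB : B ≃+* B) (orderOf δB) m := by
  classical
  have ht : 0 < orderOf δB := orderOf_pos δB
  have hμB : ∀ ζ : B, ζ ^ p = 1 → ζ = 1 := by
    obtain ⟨τ0, hτ0⟩ := SB_nonempty (B := B) S hSne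
    exact noMu_of_cl τ0 (hμ τ0 hτ0)
  constructor
  · intro hbase
    obtain ⟨L, hL⟩ := Pool.Agent.W289.SL.exists_iwasawaLog p
    obtain ⟨C, hC⟩ := s_FINQ' p B hμB L hL (SB B S) (δB : B ≃+* B) (orderOf δB) ht
      (fun x => by rw [iter_coe, pow_orderOf_eq_one]; rfl) (base_of S δB hgen hbase hL) ∅ 0
    refine ⟨C, fun Z hZ1 hZ2 => ?_⟩
    have h1 := hC C Z (fun a ha => ⟨fun v _ => (hZ1 a ha).1 v, fun v => (hZ1 a ha).1 v,
      (hZ1 a ha).2.1, (hZ1 a ha).2.2⟩) hZ2
    exact lt_of_le_of_lt h1 (Nat.lt_pow_self hp.out.one_lt)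
  · rintro ⟨m, hm⟩ χ hχ L hL x hx1 hx2
    refine base_sel Pool.Agent.L7h97.PX.s_RAT Pool.Agent.L7h30.PX.s_TINY B hL (SB B S)
      (SB_nonempty S hSne) (SB_closed S hcl) hμ (δB : B ≃+* B) (orderOf δB) m hm x ?_ hx2
    have h0 : actLin p ((δB : B ≃+* B) : B →+* B) x = ((χ δB : ℂ_[p]ˣ) : ℂ_[p]) • x := hx1 δB
    rw [aeval_eig _ _ x h0]
    have h1 : IsPrimitiveRoot ((χ δB : ℂ_[p]ˣ) : ℂ_[p]) (orderOf δB) := by
      rw [IsPrimitiveRoot.coe_units_iff]
      exact hχ
    have h3 := h1.isRoot_cyclotomic ht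
    rw [IsRoot.def, ← map_cyclotomic_int, eval_map] at h3
    have h4 : aeval ((χ δB : ℂ_[p]ˣ) : ℂ_[p]) (cyclotomic (orderOf δB) ℤ) = 0 := by
      rw [aeval_def, show algebraMap ℤ ℂ_[p] = Int.castRingHom ℂ_[p] from RingHom.ext_int _ _]
      exact h3
    rw [h4, zero_smul]

end

section cm

/-- complex conjugation -/
theorem conj_aut {F B : Type} [Field F] [NumberField F] [IsTotallyReal F] [Field B] [NumberField B]
    [IsTotallyComplex B] [Algebra F B] (hB : finrank F B = 2) (s : B →+* ℂ) (g : B ≃ₐ[F] B)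
    (hg : g ≠ 1) (y : B) : s (g y) = (starRingEnd ℂ) (s y) := by
  classical
  have : Algebra.IsQuadraticExtension F B := ⟨hB⟩
  have : IsGalois F B := inferInstance
  have hreal : (starRingEnd ℂ).comp (s.comp (algebraMap F B)) = s.comp (algebraMap F B) := by
    have h1 := IsTotallyReal.isReal (InfinitePlace.mk (s.comp (algebraMap F B)))
    rw [InfinitePlace.isReal_mk_iff] at h1
    exact h1
  obtain ⟨c, hc⟩ := exists_aut (K := F) ((starRingEnd ℂ).comp s) s (by
    rw [RingHom.comp_assoc]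
    exact hreal)
  have hc1 : c ≠ 1 := by
    rintro rfl
    refine IsTotallyComplex.complexEmbedding_not_isReal s ?_
    rw [ComplexEmbedding.isReal_iff]
    ext y
    have := RingHom.congr_fun hc y
    exact this
  have hcard : Nat.card (B ≃ₐ[F] B) = 2 := by rw [IsGalois.card_aut_eq_finrank, hB]
  have hgc : g = c := by
    obtain ⟨z, hz, hz2⟩ := (Nat.card_eq_two_iff' (1 : B ≃ₐ[F] B)).1 hcard
    rw [hz2 g hg, hz2 c hc1]
  rw [hgc]
  exact (RingHom.congr_fun hc y).symm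

/-- complex conjugation of `B` restricts to complex conjugation of `K` -/
theorem conj_res {F K E B : Type} [Field F] [NumberField F] [IsTotallyReal F] [Field K] [NumberField K]
    [IsTotallyComplex K] [Algebra F K] [Field E] [NumberField E] [IsTotallyReal E] [Field B]
    [NumberField B] [IsTotallyComplex B] [Algebra E B] [Algebra K B] (hK : finrank F K = 2)
    (hB : finrank E B = 2) (c : K ≃ₐ[F] K) (hc : c ≠ 1) (g : B ≃ₐ[E] B) (hg : g ≠ 1) (k : K) :
    g (algebraMap K B k) = algebraMap K B (c k) := by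
  obtain ⟨s⟩ : Nonempty (B →+* ℂ) := inferInstance
  apply s.injective
  rw [conj_aut hB s g hg]
  exact (conj_aut hK (s.comp (algebraMap K B)) c hc k).symm

/-- the `S`-Leopoldt statement for CM fields with abelian maximal real subfield -/
theorem cm_base {F K E B : Type} [Field F] [NumberField F] [IsTotallyReal F] [Field K] [NumberField K]
    [IsTotallyComplex K] [Algebra F K] [Field E] [NumberField E] [IsTotallyReal E] [IsGalois ℚ E]
    [Field B] [NumberField B] [IsTotallyComplex B] [Algebra E B] [Algebra K B] (hK : finrank F K = 2)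
    (hB : finrank E B = 2) (hab : ∀ g h : E ≃ₐ[ℚ] E, g * h = h * g) (S : Set (K →+* ℂ_[p]))
    (hS : IsCMType p F K S) (χ : (B ≃ₐ[K] B) →* ℂ_[p]ˣ) : SigmaLeopoldt p K B S χ := by
  classical
  intro L hL x _ hx
  have : Algebra.IsQuadraticExtension E B := ⟨hB⟩
  have : IsGalois E B := inferInstance
  have : Algebra.IsQuadraticExtension F K := ⟨hK⟩
  have : IsGalois F K := inferInstance
  have hcE : Nat.card (B ≃ₐ[E] B) = 2 := by rw [IsGalois.card_aut_eq_finrank, hB]
  have hcF : Nat.card (K ≃ₐ[F] K) = 2 := by rw [IsGalois.card_aut_eq_finrank, hK]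
  obtain ⟨g, hg, -⟩ := (Nat.card_eq_two_iff' (1 : B ≃ₐ[E] B)).1 hcE
  obtain ⟨c, hc, -⟩ := (Nat.card_eq_two_iff' (1 : K ≃ₐ[F] K)).1 hcF
  refine Pool.Agent.L7h97.PX.s_ABL p E B hab hB L hL {σ | σ.comp (algebraMap K B) ∈ S} ?_ x hx
  intro τ
  obtain ⟨σ, hσ⟩ := exists_over (H := B) τ
  by_cases h : σ.comp (algebraMap K B) ∈ S
  · exact ⟨σ, h, hσ⟩
  · refine ⟨σ.comp (g : B →+* B), ?_, ?_⟩
    · have h1 : (σ.comp (g : B →+* B)).comp (algebraMap K B) =
          (σ.comp (algebraMap K B)).comp (c : K →+* K) := by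
        ext k
        exact congrArg σ (conj_res hK hB c hc g hg k)
      change (σ.comp (g : B →+* B)).comp (algebraMap K B) ∈ S
      rw [h1]
      by_contra h2
      exact h ((hS c hc _).2 h2)
    · rw [← hσ]
      ext e
      change σ (g (algebraMap E B e)) = σ (algebraMap E B e)
      rw [g.commutes]

end cm

end Pool.Agent.L7h1.PX
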