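import Mathlib

/-!
# Lattices over `ℤ_p` with the action of a cyclic group of order `p^n`: the levels
-/

set_option autoImplicit false
set_option linter.unusedSectionVars false

namespace Pool.Agent.L7h1.PX.Lat

open Polynomial Module Submodule

variable {p : ℕ} [Fact p.Prime] {V : Type} [AddCommGroup V] [Module ℤ_[p] V]


/-- the cyclotomic polynomial of level `j` -/
noncomputable abbrev Ph (p : ℕ) [Fact p.Prime] (j : ℕ) : ℤ_[p][X] := cyclotomic (p ^ j) ℤ_[p]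

lemma ph_one {j : ℕ} (hj : 1 ≤ j) : ∃ h : ℤ_[p][X], Ph p j = C (p : ℤ_[p]) + (X - 1) * h := by
  obtain ⟨m, rfl⟩ := Nat.exists_eq_add_of_le hj
  obtain ⟨h, hh⟩ := X_sub_C_dvd_sub_C_eval (p := Ph p (1 + m)) (a := (1 : ℤ_[p]))
  refine ⟨h, ?_⟩
  have h1 : eval 1 (Ph p (1 + m)) = (p : ℤ_[p]) := by
    rw [add_comm 1 m]
    exact eval_one_cyclotomic_prime_pow m
  rw [h1] at hh
  rw [← C_1, ← hh]
  ring

lemma ph_rel {i j : ℕ} (hi : 1 ≤ i) (hj : 1 ≤ j) (hij : i < j) :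
    ∃ g : ℤ_[p][X], C (p : ℤ_[p]) = Ph p j - Ph p i * g := by
  obtain ⟨m, rfl⟩ : ∃ m, j = m + 1 := ⟨j - 1, by omega⟩
  have hge : Ph p (m + 1) = ∑ l ∈ Finset.range p, ((X : ℤ_[p][X]) ^ p ^ m) ^ l := by
    rw [Ph, cyclotomic_prime_pow_eq_geom_sum (Fact.out)]
  have h1 : (X : ℤ_[p][X]) ^ p ^ m - 1 ∣ Ph p (m + 1) - C (p : ℤ_[p]) := by
    have h2 : Ph p (m + 1) - C (p : ℤ_[p]) =
        ∑ l ∈ Finset.range p, (((X : ℤ_[p][X]) ^ p ^ m) ^ l - 1) := by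
      rw [hge, Finset.sum_sub_distrib]
      simp
    rw [h2]
    refine Finset.dvd_sum fun l _ => ?_
    simpa using sub_dvd_pow_sub_pow ((X : ℤ_[p][X]) ^ p ^ m) 1 l
  have h3 : Ph p i ∣ (X : ℤ_[p][X]) ^ p ^ m - 1 := by
    refine (cyclotomic.dvd_X_pow_sub_one (p ^ i) ℤ_[p]).trans ?_
    obtain ⟨c, hc⟩ := pow_dvd_pow p (show i ≤ m by omega)
    rw [hc, pow_mul]
    simpa using sub_dvd_pow_sub_pow ((X : ℤ_[p][X]) ^ p ^ i) 1 c
  obtain ⟨g, hg⟩ := h3.trans h1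
  exact ⟨g, by rw [← hg]; ring⟩

lemma ph_comb {i j : ℕ} (hi : 1 ≤ i) (hj : 1 ≤ j) (hij : i ≠ j) :
    ∃ α β : ℤ_[p][X], C (p : ℤ_[p]) = α * Ph p i + β * Ph p j := by
  rcases Nat.lt_or_gt_of_ne hij with h | h
  · obtain ⟨g, hg⟩ := ph_rel (p := p) hi hj h
    exact ⟨-g, 1, by rw [hg]; ring⟩
  · obtain ⟨g, hg⟩ := ph_rel (p := p) hj hi h
    exact ⟨1, -g, by rw [hg]; ring⟩

/-- the product of the cyclotomic polynomials -/
noncomputable def PP (p : ℕ) [Fact p.Prime] (J : Finset ℕ) : ℤ_[p][X] := ∏ j ∈ J, Ph p j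

lemma pp_comb (J : Finset ℕ) (hJ : ∀ i ∈ J, 1 ≤ i) {j : ℕ} (hj : 1 ≤ j) (hjJ : j ∉ J) :
    ∃ α β : ℤ_[p][X], C (p : ℤ_[p]) ^ J.card = α * PP p J + β * Ph p j := by
  classical
  induction J using Finset.induction_on with
  | empty => exact ⟨1, 0, by simp [PP]⟩
  | insert i J hi ih =>
    obtain ⟨α, β, h1⟩ := ih (fun l hl => hJ l (Finset.mem_insert_of_mem hl))
      (fun h => hjJ (Finset.mem_insert_of_mem h))
    obtain ⟨α', β', h2⟩ := ph_comb (p := p) (hJ i (Finset.mem_insert_self i J)) hj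
      (fun h => hjJ (h ▸ Finset.mem_insert_self i J))
    refine ⟨α * α', α * PP p J * β' + β * (α' * Ph p i + β' * Ph p j), ?_⟩
    rw [Finset.card_insert_of_notMem hi, pow_succ, h1]
    have h3 : PP p (insert i J) = Ph p i * PP p J := by
      rw [PP, Finset.prod_insert hi, PP]
    rw [h3]
    conv_lhs => rw [h2]
    ring

/-- `(X - 1)^(p^n)` modulo `p` -/
lemma pow_rel (n : ℕ) : ∃ g : ℤ_[p][X], (X - 1 : ℤ_[p][X]) ^ p ^ n = X ^ p ^ n - 1 + C (p : ℤ_[p]) * g := by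
  obtain ⟨r, hr⟩ := exists_add_pow_prime_pow_eq (Fact.out : p.Prime) (X : ℤ_[p][X]) (-1) n
  rcases (Fact.out : p.Prime).eq_two_or_odd' with h2 | hodd
  · subst h2
    rcases Nat.eq_zero_or_pos n with h0 | hn
    · subst h0
      exact ⟨0, by simp⟩
    · have he : ((-1 : ℤ_[2][X])) ^ 2 ^ n = 1 := by
        apply Even.neg_one_pow
        exact (Nat.even_pow.2 ⟨even_two, by omega⟩)
      refine ⟨r * (X * -1) + 1, ?_⟩
      rw [sub_eq_add_neg, hr, he]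
      simp only [Nat.cast_ofNat, map_ofNat]
      ring
  · have he : ((-1 : ℤ_[p][X])) ^ p ^ n = -1 := (hodd.pow).neg_one_pow
    refine ⟨X * -1 * r, ?_⟩
    rw [sub_eq_add_neg, hr, he]
    simp only [map_natCast]
    ring

end Pool.Agent.L7h1.PX.Lat
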