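import Pool.Agent.L7h1.PX.Core
import Pool.Agent.W332.SL7.Proj

/-!
# Project PX: reduction of abelian extensions to cyclic ones
-/

set_option autoImplicit false
set_option linter.unusedSectionVars false

namespace Pool.Agent.L7h1.PX

open NumberField TensorProduct Pool.Agent.W289.SL Module IsDedekindDomain Polynomial
open Pool.Agent.W332.SL6 (push push_push actLin_eq logLin_push logLin_tmul')

variable {p : ℕ} [hp : Fact p.Prime]

section poly

variable {U V : Type} [AddCommGroup U] [Module ℂ_[p] U] [AddCommGroup V] [Module ℂ_[p] V]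

/-- polynomials and intertwining maps -/
lemma aeval_int (f : U →ₗ[ℂ_[p]] V) (a : Module.End ℂ_[p] U) (b : Module.End ℂ_[p] V)
    (h : ∀ x, f (a x) = b (f x)) (P : ℤ[X]) (x : U) : f (aeval a P x) = aeval b P (f x) := by
  induction P using Polynomial.induction_on' with
  | add P Q hP hQ => rw [map_add, map_add, LinearMap.add_apply, LinearMap.add_apply, map_add, hP, hQ]
  | monomial n c =>
    have h1 : ∀ m : ℕ, f ((a ^ m) x) = (b ^ m) (f x) := by
      intro m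
      induction m with
      | zero => rfl
      | succ m ih => rw [pow_succ', pow_succ', Module.End.mul_apply, Module.End.mul_apply, h, ih]
    rw [aeval_monomial, aeval_monomial, Module.End.mul_apply, Module.End.mul_apply, ← h1]
    change f (c • (a ^ n) x) = c • f ((a ^ n) x)
    exact map_zsmul f c _

/-- polynomials and eigenvectors -/
lemma aeval_eig (b : Module.End ℂ_[p] V) (μ : ℂ_[p]) (x : V) (h : b x = μ • x) (P : ℤ[X]) :
    aeval b P x = (aeval μ P) • x := by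
  induction P using Polynomial.induction_on' with
  | add P Q hP hQ => rw [map_add, map_add, LinearMap.add_apply, add_smul, hP, hQ]
  | monomial n c =>
    have h1 : ∀ m : ℕ, (b ^ m) x = μ ^ m • x := by
      intro m
      induction m with
      | zero => simp
      | succ m ih => rw [pow_succ', Module.End.mul_apply, ih, map_smul, h, smul_smul, pow_succ]
    rw [aeval_monomial, aeval_monomial, Module.End.mul_apply, h1]
    have h2 : ∀ w : V, (algebraMap ℤ (Module.End ℂ_[p] V)) c w = c • w := fun w => rfl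
    rw [h2, eq_intCast, mul_smul, Int.cast_smul_eq_zsmul]

end poly

lemma logLin_unq (hUNQ : S_UNQ) {H : Type} [Field H] [NumberField H] {L L' : ℂ_[p] → ℂ_[p]}
    (hL : IsIwasawaLog p L) (hL' : IsIwasawaLog p L') (σ : H →+* ℂ_[p]) (x : UM p H) :
    logLin hL σ x = logLin hL' σ x := by
  induction x using TensorProduct.induction_on with
  | zero => simp
  | tmul c u =>
    rw [logLin_tmul', logLin_tmul']
    congr 1
    exact hUNQ p H L L' hL hL' σ (Additive.toMul u)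
  | add x y hx hy => rw [map_add, map_add, hx, hy]

/-- the statement fails for some character of order `t` on `δ` and equal to `κ` on `Gal(H/B)` -/
def Fails (p : ℕ) [Fact p.Prime] {K B H : Type} [Field K] [Field B] [Field H] [NumberField H]
    [Algebra K B] [Algebra K H] [Algebra B H] [IsScalarTower K B H] (S : Set (K →+* ℂ_[p]))
    (δ : H ≃ₐ[K] H) (t : ℕ) (κ : (H ≃ₐ[B] H) →* ℂ_[p]ˣ) : Prop :=
  ∃ χ : (H ≃ₐ[K] H) →* ℂ_[p]ˣ, IsPrimitiveRoot (χ δ) t ∧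
    (∀ g : H ≃ₐ[B] H, χ (g.restrictScalars K) = κ g) ∧ ¬ SigmaLeopoldt p K H S χ

/-- the embeddings of `B` over `S` -/
noncomputable def SB {K : Type} (B : Type) [Field K] [Field B] [Algebra K B] (S : Set (K →+* ℂ_[p])) :
    Set (B →+* ℂ_[p]) := {τ | τ.comp (algebraMap K B) ∈ S}

section red

variable {K B H : Type} [Field K] [NumberField K] [Field B] [NumberField B] [Field H] [NumberField H]
  [Algebra K B] [Algebra K H] [Algebra B H] [IsScalarTower K B H] [IsGalois K B] [IsGalois K H]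
  [IsGalois B H]

/-- the field cut out by the character -/
noncomputable abbrev Fx (κ : (H ≃ₐ[B] H) →* ℂ_[p]ˣ) : IntermediateField B H := IntermediateField.fixedField κ.ker

instance (κ : (H ≃ₐ[B] H) →* ℂ_[p]ˣ) : IsGalois B (Fx κ) :=
  IsGalois.of_fixedField_normal_subgroup κ.ker

lemma mem_Fx (κ : (H ≃ₐ[B] H) →* ℂ_[p]ˣ) (x : H) : x ∈ Fx κ ↔ ∀ g : H ≃ₐ[B] H, κ g = 1 → g x = x := by
  rw [IntermediateField.mem_fixedField_iff]
  rfl

/-- automorphisms which agree on the field cut out by `κ` have the same value of `κ` -/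
lemma kappa_eq (κ : (H ≃ₐ[B] H) →* ℂ_[p]ˣ) (g h : H ≃ₐ[B] H) (hgh : ∀ x ∈ Fx κ, g x = h x) :
    κ g = κ h := by
  have h1 : g⁻¹ * h ∈ (Fx κ).fixingSubgroup := by
    rw [IntermediateField.mem_fixingSubgroup_iff]
    intro x hx
    rw [AlgEquiv.mul_apply, ← hgh x hx]
    exact g.symm_apply_apply x
  rw [IntermediateField.fixingSubgroup_fixedField] at h1
  have h2 : κ (g⁻¹ * h) = 1 := h1
  rw [map_mul, map_inv, inv_mul_eq_one] at h2
  exact h2

variable (hab : ∀ g h : H ≃ₐ[K] H, g * h = h * g)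

include hab in
lemma comm_apply (g : H ≃ₐ[B] H) (δ : H ≃ₐ[K] H) (x : H) : g (δ x) = δ (g x) := by
  have h1 := DFunLike.congr_fun (hab (g.restrictScalars K) δ) x
  exact h1

include hab in
lemma delta_mem (κ : (H ≃ₐ[B] H) →* ℂ_[p]ˣ) (δ : H ≃ₐ[K] H) (x : H) (hx : x ∈ Fx κ) : δ x ∈ Fx κ := by
  rw [mem_Fx] at hx ⊢
  intro g hg
  rw [comm_apply hab, hx g hg]

/-- the restriction of `δ` -/
noncomputable def dres (κ : (H ≃ₐ[B] H) →* ℂ_[p]ˣ) (δ : H ≃ₐ[K] H) : Fx κ ≃+* Fx κ where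
  toFun x := ⟨δ x, delta_mem hab κ δ x x.2⟩
  invFun x := ⟨δ.symm x, delta_mem hab κ δ.symm x x.2⟩
  left_inv x := Subtype.ext (δ.symm_apply_apply x)
  right_inv x := Subtype.ext (δ.apply_symm_apply x)
  map_mul' x y := Subtype.ext (map_mul δ (x : H) y)
  map_add' x y := Subtype.ext (map_add δ (x : H) y)

lemma dres_coe (κ : (H ≃ₐ[B] H) →* ℂ_[p]ˣ) (δ : H ≃ₐ[K] H) (x : Fx κ) :
    ((dres hab κ δ x : Fx κ) : H) = δ x := rfl

/-- the restriction of an automorphism over `B` -/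
noncomputable def gres (κ : (H ≃ₐ[B] H) →* ℂ_[p]ˣ) : (H ≃ₐ[B] H) →* (Fx κ ≃ₐ[B] Fx κ) :=
  AlgEquiv.restrictNormalHom (Fx κ)

lemma gres_coe (κ : (H ≃ₐ[B] H) →* ℂ_[p]ˣ) (g : H ≃ₐ[B] H) (x : Fx κ) :
    ((gres κ g x : Fx κ) : H) = g x :=
  AlgEquiv.restrictNormal_commutes g (Fx κ) x

lemma gres_surj (κ : (H ≃ₐ[B] H) →* ℂ_[p]ˣ) : Function.Surjective (gres κ) :=
  AlgEquiv.restrictNormalHom_surjective H

lemma kappa_of_gres (κ : (H ≃ₐ[B] H) →* ℂ_[p]ˣ) (g h : H ≃ₐ[B] H) :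
    gres κ g = gres κ h ↔ κ g = κ h := by
  constructor
  · intro hgh
    refine kappa_eq κ g h fun x hx => ?_
    have h1 := congrArg (fun e : Fx κ ≃ₐ[B] Fx κ => ((e ⟨x, hx⟩ : Fx κ) : H)) hgh
    simp only [gres_coe] at h1
    exact h1
  · intro hk
    ext x
    rw [gres_coe, gres_coe]
    have h1 : κ (h⁻¹ * g) = 1 := by rw [map_mul, map_inv, hk, inv_mul_cancel]
    have h2 := (mem_Fx κ (x : H)).1 x.2 _ h1
    rw [AlgEquiv.mul_apply] at h2
    have h3 := congrArg h h2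
    have h4 : h (h⁻¹ (g (x : H))) = g x := h.apply_symm_apply _
    rw [h4] at h3
    exact h3

/-- a generator -/
lemma exists_gen (κ : (H ≃ₐ[B] H) →* ℂ_[p]ˣ) :
    ∃ γ₀ : H ≃ₐ[B] H, ∀ g : H ≃ₐ[B] H, ∃ i : ℕ, κ g = κ γ₀ ^ i := by
  have hfin : Finite κ.range := Finite.of_surjective κ.rangeRestrict κ.rangeRestrict_surjective
  have hcyc : IsCyclic κ.range := isCyclic_subgroup_units _
  obtain ⟨⟨_, ⟨γ₀, rfl⟩⟩, hγ⟩ := hcyc.exists_generator
  refine ⟨γ₀, fun g => ?_⟩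
  obtain ⟨i, hi⟩ := (mem_powers_iff_mem_zpowers.2 (hγ ⟨κ g, ⟨g, rfl⟩⟩))
  refine ⟨i, ?_⟩
  have h1 := congrArg Subtype.val hi
  exact h1.symm

lemma order_gres (κ : (H ≃ₐ[B] H) →* ℂ_[p]ˣ) (γ₀ : H ≃ₐ[B] H) :
    orderOf (gres κ γ₀) = orderOf (κ γ₀) := by
  rw [orderOf_eq_orderOf_iff]
  intro k
  rw [← map_pow, ← map_pow, ← map_one (gres κ), kappa_of_gres, map_one]

lemma order_kappa (κ : (H ≃ₐ[B] H) →* ℂ_[p]ˣ) (γ₀ : H ≃ₐ[B] H)
    (hγ₀ : ∀ g : H ≃ₐ[B] H, ∃ i : ℕ, κ g = κ γ₀ ^ i) : orderOf κ = orderOf (κ γ₀) := by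
  rw [orderOf_eq_orderOf_iff]
  intro k
  constructor
  · intro h
    have h1 := DFunLike.congr_fun h γ₀
    exact h1
  · intro h
    ext g
    obtain ⟨i, hi⟩ := hγ₀ g
    change ((κ g ^ k : ℂ_[p]ˣ) : ℂ_[p]) = ((1 : ℂ_[p]ˣ) : ℂ_[p])
    rw [hi, ← pow_mul, mul_comm, pow_mul, h, one_pow]

lemma card_Fx (κ : (H ≃ₐ[B] H) →* ℂ_[p]ˣ) (γ₀ : H ≃ₐ[B] H)
    (hγ₀ : ∀ g : H ≃ₐ[B] H, ∃ i : ℕ, κ g = κ γ₀ ^ i) : finrank B (Fx κ) = orderOf κ := by
  rw [← IsGalois.card_aut_eq_finrank B (Fx κ), order_kappa κ γ₀ hγ₀, ← order_gres]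
  refine (orderOf_eq_card_of_forall_mem_zpowers fun g => ?_).symm
  obtain ⟨g, rfl⟩ := gres_surj κ g
  obtain ⟨i, hi⟩ := hγ₀ g
  refine ⟨(i : ℤ), ?_⟩
  change gres κ γ₀ ^ (i : ℤ) = gres κ g
  rw [zpow_natCast, ← map_pow, kappa_of_gres, hi, map_pow]

/-- the element over the field cut out by `κ` -/
lemma descend (hDSC : S_DSC) (κ : (H ≃ₐ[B] H) →* ℂ_[p]ˣ) (x : UM p H)
    (hx : ∀ g : H ≃ₐ[B] H, κ g = 1 → actLin p (g : H →+* H) x = x) :
    ∃ y : UM p (Fx κ), push (algebraMap (Fx κ) H) y = x := by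
  obtain ⟨y, hy⟩ := hDSC p (Fx κ) H x (fun g => by
    refine hx (g.restrictScalars B) ?_
    have h1 : g.restrictScalars B ∈ (Fx κ).fixingSubgroup := by
      rw [IntermediateField.mem_fixingSubgroup_iff]
      intro z hz
      exact g.commutes ⟨z, hz⟩
    rw [IntermediateField.fixingSubgroup_fixedField] at h1
    exact h1)
  exact ⟨y, hy⟩

lemma fails_level (hUNQ : S_UNQ) (hDSC : S_DSC) (θ : ℂ_[p] ≃+* ℂ) {L : ℂ_[p] → ℂ_[p]}
    (hL : IsIwasawaLog p L)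
    (S : Set (K →+* ℂ_[p])) (δ : H ≃ₐ[K] H) (t : ℕ) (ht : 0 < t) (κ : (H ≃ₐ[B] H) →* ℂ_[p]ˣ)
    (γ₀ : H ≃ₐ[B] H) (hγ₀ : ∀ g : H ≃ₐ[B] H, ∃ i : ℕ, κ g = κ γ₀ ^ i) (m j : ℕ)
    (hj : orderOf (κ ^ m) = p ^ j) (hf : Fails (B := B) p S δ t (κ ^ m)) :
    Lev hL (Ov (Fx κ) (SB B S)) ((gres κ γ₀ : Fx κ ≃ₐ[B] Fx κ) : Fx κ ≃+* Fx κ)
      (dres hab κ δ) t j := by
  obtain ⟨χ, hχδ, hχκ, hfail⟩ := hf
  unfold SigmaLeopoldt at hfail
  push Not at hfail
  obtain ⟨L', hL', x, hx1, hx2, hx0⟩ := hfail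
  have hxg : ∀ g : H ≃ₐ[B] H, actLin p (g : H →+* H) x = ((κ g ^ m : ℂ_[p]ˣ) : ℂ_[p]) • x := by
    intro g
    have h1 := hx1 (g.restrictScalars K)
    rw [hχκ] at h1
    exact h1
  obtain ⟨y, hy⟩ := descend hDSC κ x (fun g hg => by rw [hxg, hg, one_pow, Units.val_one, one_smul])
  have hinj : Function.Injective (push (p := p) (algebraMap (Fx κ) H)) := by
    rw [injective_iff_map_eq_zero]
    exact fun z hz => Pool.Agent.W332.SL7.push_injective θ _ z hz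
  refine ⟨y, ?_, ?_, ?_, ?_⟩
  · rintro rfl
    exact hx0 (by rw [← hy, map_zero])
  · intro σ' hσ'
    obtain ⟨σ, rfl⟩ := exists_over (H := H) σ'
    rw [← logLin_push, hy, logLin_unq hUNQ hL hL']
    refine hx2 σ ?_
    have h1 : σ.comp (algebraMap K H) = (((σ.comp (algebraMap (Fx κ) H)).comp
        (algebraMap B (Fx κ))).comp (algebraMap K B)) := by
      ext k
      change σ (algebraMap K H k) = σ (algebraMap (Fx κ) H (algebraMap B (Fx κ) (algebraMap K B k)))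
      rw [← IsScalarTower.algebraMap_apply B (Fx κ) H, ← IsScalarTower.algebraMap_apply K B H]
    rw [h1]
    exact hσ'
  · apply hinj
    rw [map_zero, aeval_int (push (p := p) (algebraMap (Fx κ) H)) _ (actLin p (γ₀ : H →+* H)) (fun z => by
      rw [actLin_eq, actLin_eq, push_push, push_push]
      congr 2
      exact RingHom.ext fun w => gres_coe κ γ₀ w), hy, aeval_eig _ _ x (hxg γ₀)]
    have h1 : IsPrimitiveRoot ((κ γ₀ ^ m : ℂ_[p]ˣ) : ℂ_[p]) (p ^ j) := by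
      rw [IsPrimitiveRoot.coe_units_iff]
      have h2 := order_kappa (κ ^ m) γ₀ (fun g => by
        obtain ⟨i, hi⟩ := hγ₀ g
        refine ⟨i, ?_⟩
        change κ g ^ m = (κ γ₀ ^ m) ^ i
        rw [hi, ← pow_mul, ← pow_mul, mul_comm])
      have h3 : (κ ^ m) γ₀ = κ γ₀ ^ m := rfl
      rw [h3, hj] at h2
      rw [h2]
      exact IsPrimitiveRoot.orderOf _
    have h3 := h1.isRoot_cyclotomic (pow_pos hp.out.pos _)
    rw [IsRoot.def, ← map_cyclotomic_int, eval_map] at h3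
    have h4 : aeval ((κ γ₀ ^ m : ℂ_[p]ˣ) : ℂ_[p]) (cyclotomic (p ^ j) ℤ) = 0 := by
      rw [aeval_def, show algebraMap ℤ ℂ_[p] = Int.castRingHom ℂ_[p] from RingHom.ext_int _ _]
      exact h3
    rw [h4, zero_smul]
  · apply hinj
    rw [map_zero, aeval_int (push (p := p) (algebraMap (Fx κ) H)) _ (actLin p (δ : H →+* H)) (fun z => by
      rw [actLin_eq, actLin_eq, push_push, push_push]
      congr 1
      ), hy, aeval_eig _ _ x (hx1 δ)]
    have h1 : IsPrimitiveRoot ((χ δ : ℂ_[p]ˣ) : ℂ_[p]) t := by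
      rw [IsPrimitiveRoot.coe_units_iff]
      exact hχδ
    have h3 := h1.isRoot_cyclotomic ht
    rw [IsRoot.def, ← map_cyclotomic_int, eval_map] at h3
    have h4 : aeval ((χ δ : ℂ_[p]ˣ) : ℂ_[p]) (cyclotomic t ℤ) = 0 := by
      rw [aeval_def, show algebraMap ℤ ℂ_[p] = Int.castRingHom ℂ_[p] from RingHom.ext_int _ _]
      exact h3
    rw [h4, zero_smul]

end red

end Pool.Agent.L7h1.PX
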