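import Pool.Agent.L7h1.PX.Red

/-!
# Project PX: the base and the theorem for abelian extensions
-/

set_option autoImplicit false
set_option linter.unusedSectionVars false

namespace Pool.Agent.L7h1.PX

open NumberField TensorProduct Pool.Agent.W289.SL Module IsDedekindDomain Polynomial
open Pool.Agent.W332.SL6 (push push_push actLin_eq logLin_push logLin_tmul')

variable {p : ℕ} [hp : Fact p.Prime]

lemma aeval_C_eig {V : Type} [AddCommGroup V] [Module ℂ_[p] V] (D : Module.End ℂ_[p] V) (t : ℕ)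
    (ht : 0 < t) (x : V) (hx : aeval D (cyclotomic t ℤ) x = 0) (W : Submodule ℂ_[p] V)
    (hW : ∀ y ∈ W, D y ∈ W) (hxW : x ∈ W)
    (h : ∀ (ω : ℂ_[p]) (y : V), y ∈ W → IsPrimitiveRoot ω t → D y = ω • y → y = 0) : x = 0 := by
  classical
  have : NeZero t := ⟨ht.ne'⟩
  obtain ⟨ω₀, hω₀⟩ := HasEnoughRootsOfUnity.exists_primitiveRoot ℂ_[p] t
  set s := primitiveRoots t ℂ_[p] with hs
  have hne : s.Nonempty := ⟨ω₀, (mem_primitiveRoots ht).2 hω₀⟩
  have hW' : ∀ (P : ℂ_[p][X]), ∀ y ∈ W, aeval D P y ∈ W := by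
    intro P y hy
    induction P using Polynomial.induction_on' with
    | add P Q hP hQ => rw [map_add, LinearMap.add_apply]; exact W.add_mem hP hQ
    | monomial n c =>
      rw [aeval_monomial, Module.End.mul_apply]
      have h1 : ∀ m : ℕ, (D ^ m) y ∈ W := by
        intro m
        induction m with
        | zero => exact hy
        | succ m ih => rw [pow_succ', Module.End.mul_apply]; exact hW _ ih
      exact W.smul_mem c (h1 n)
  have h1 : ∀ ω ∈ s, aeval D (Lagrange.basis s id ω) x = 0 := by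
    intro ω hω
    refine h ω _ (hW' _ x hxW) ((mem_primitiveRoots ht).1 hω) ?_
    have h2 : ∃ c : ℂ_[p], (X - C ω) * Lagrange.basis s id ω = C c * cyclotomic t ℂ_[p] := by
      refine ⟨∏ j ∈ s.erase ω, (ω - j)⁻¹, ?_⟩
      rw [cyclotomic_eq_prod_X_sub_primitiveRoots hω₀, ← Finset.mul_prod_erase _ _ hω,
        Lagrange.basis, map_prod]
      simp only [Lagrange.basisDivisor, id, Finset.prod_mul_distrib]
      ring
    obtain ⟨c, hc⟩ := h2
    have h3 : aeval D ((X - C ω) * Lagrange.basis s id ω) x = 0 := by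
      rw [hc, map_mul, Module.End.mul_apply, ← map_cyclotomic_int t ℂ_[p]]
      have h4 : aeval D ((cyclotomic t ℤ).map (Int.castRingHom ℂ_[p])) = aeval D (cyclotomic t ℤ) := by
        rw [aeval_def, eval₂_map, aeval_def]
        congr 1
        exact RingHom.ext_int _ _
      rw [h4, hx, map_zero]
    rw [map_mul, Module.End.mul_apply, map_sub, aeval_X, aeval_C, LinearMap.sub_apply, sub_eq_zero] at h3
    exact h3
  have h2 := Lagrange.sum_basis (s := s) (v := (id : ℂ_[p] → ℂ_[p])) (Set.injOn_id _) hne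
  have h3 : aeval D (∑ j ∈ s, Lagrange.basis s id j) x = x := by
    rw [h2, map_one]
    rfl
  rw [map_sum, LinearMap.sum_apply, Finset.sum_eq_zero h1] at h3
  exact h3.symm

lemma push_one' {B : Type} [Field B] [NumberField B] (f : B →+* B) (hf : ∀ x, f x = x) (y : UM p B) :
    push f y = y := by
  induction y using TensorProduct.induction_on with
  | zero => simp
  | tmul c u =>
    rw [Pool.Agent.W332.SL6.push_tmul]
    congr 1
    apply Additive.toMul.injective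
    apply Units.ext
    apply RingOfIntegers.ext
    exact hf _
  | add x y hx hy => rw [map_add, hx, hy]

section base

variable {K B : Type} [Field K] [NumberField K] [Field B] [NumberField B] [Algebra K B] [IsGalois K B]

lemma iter_coe (δB : B ≃ₐ[K] B) (m : ℕ) (x : B) :
    ((δB : B ≃+* B) : B → B)^[m] x = (δB ^ m) x := by
  induction m with
  | zero => rfl
  | succ m ih =>
    rw [Function.iterate_succ_apply', ih, pow_succ']
    rfl

/-- the base hypothesis from the `S`-Leopoldt statement for the faithful characters -/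
theorem base_of (S : Set (K →+* ℂ_[p])) (δB : B ≃ₐ[K] B)
    (hgen : ∀ g : B ≃ₐ[K] B, g ∈ Subgroup.zpowers δB)
    (hbase : ∀ χ : (B ≃ₐ[K] B) →* ℂ_[p]ˣ, IsPrimitiveRoot (χ δB) (orderOf δB) → SigmaLeopoldt p K B S χ)
    {L : ℂ_[p] → ℂ_[p]} (hL : IsIwasawaLog p L) :
    Base hL (SB B S) (δB : B ≃+* B) (orderOf δB) := by
  intro x hx hx0
  have ht : 0 < orderOf δB := orderOf_pos δB
  let W : Submodule ℂ_[p] (UM p B) :=
    { carrier := {y | ∀ τ ∈ SB B S, logLin hL τ y = 0}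
      add_mem' := fun {a b} ha hb τ hτ => by rw [map_add, ha τ hτ, hb τ hτ, add_zero]
      zero_mem' := fun τ _ => map_zero _
      smul_mem' := fun c y hy τ hτ => by rw [map_smul, hy τ hτ, smul_zero] }
  refine aeval_C_eig (actLin p ((δB : B ≃+* B) : B →+* B)) (orderOf δB) ht x hx W ?_ hx0 ?_
  · intro y hy τ hτ
    rw [actLin_eq, logLin_push]
    refine hy _ ?_
    change (τ.comp ((δB : B ≃+* B) : B →+* B)).comp (algebraMap K B) ∈ S
    have h1 : (τ.comp ((δB : B ≃+* B) : B →+* B)).comp (algebraMap K B) = τ.comp (algebraMap K B) := by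
      ext b
      change τ (δB (algebraMap K B b)) = τ (algebraMap K B b)
      rw [δB.commutes]
    rw [h1]
    exact hτ
  · intro ω y hyW hω hy
    have hu : IsPrimitiveRoot (hω.isUnit ht.ne').unit (orderOf δB) := by
      rw [← IsPrimitiveRoot.coe_units_iff]
      exact hω
    let χ : (B ≃ₐ[K] B) →* ℂ_[p]ˣ := monoidHomOfForallMemZpowers hgen
      (g' := (hω.isUnit ht.ne').unit) (orderOf_dvd_of_pow_eq_one hu.pow_eq_one)
    have hχ : χ δB = (hω.isUnit ht.ne').unit := monoidHomOfForallMemZpowers_apply_gen _ _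
    refine hbase χ (by rw [hχ]; exact hu) L hL y ?_ hyW
    intro g
    obtain ⟨i, hi⟩ := mem_powers_iff_mem_zpowers.2 (hgen g)
    simp only at hi
    rw [← hi, map_pow, hχ]
    have h1 : ∀ m : ℕ, actLin p (((δB ^ m : B ≃ₐ[K] B)) : B →+* B) y = ω ^ m • y := by
      intro m
      induction m with
      | zero =>
        rw [pow_zero, pow_zero, one_smul]
        exact push_one' _ (fun x => rfl) y
      | succ m ih =>
        have h2 : actLin p (((δB ^ (m + 1) : B ≃ₐ[K] B)) : B →+* B) y =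
            actLin p ((δB : B ≃+* B) : B →+* B) (actLin p (((δB ^ m : B ≃ₐ[K] B)) : B →+* B) y) := by
          rw [actLin_eq, actLin_eq, actLin_eq, push_push, pow_succ']
          rfl
        rw [h2, ih, map_smul, hy, smul_smul, pow_succ]
    rw [h1, Units.val_pow_eq_pow_val]
    rfl

end base

section main

variable {K B : Type} [Field K] [NumberField K] [Field B] [NumberField B] [Algebra K B] [IsGalois K B]

lemma SB_closed (S : Set (K →+* ℂ_[p]))
    (hcl : ∀ τ τ' : K →+* ℂ_[p], (∀ y, ‖τ' y‖ = ‖τ y‖) → τ ∈ S → τ' ∈ S) :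
    ∀ τ τ' : B →+* ℂ_[p], (∀ y, ‖τ' y‖ = ‖τ y‖) → τ ∈ SB B S → τ' ∈ SB B S :=
  fun _ _ h hτ => hcl _ _ (fun y => h (algebraMap K B y)) hτ

lemma SB_nonempty (S : Set (K →+* ℂ_[p])) (hS : S.Nonempty) : (SB B S).Nonempty := by
  obtain ⟨τ, hτ⟩ := hS
  obtain ⟨σ, hσ⟩ := exists_over (H := B) τ
  exact ⟨σ, by rw [← hσ] at hτ; exact hτ⟩

/-- the trivial character does not fail if the base hypothesis holds -/
theorem fails_one (hUNQ : S_UNQ) (hDSC : S_DSC) (θ : ℂ_[p] ≃+* ℂ)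
    (S : Set (K →+* ℂ_[p])) (δB : B ≃ₐ[K] B)
    (hbase : ∀ (L : ℂ_[p] → ℂ_[p]) (hL : IsIwasawaLog p L),
      Base hL (SB B S) (δB : B ≃+* B) (orderOf δB))
    {H : Type} [Field H] [NumberField H] [Algebra K H] [Algebra B H] [IsScalarTower K B H]
      [IsGalois K H] (δ : H ≃ₐ[K] H)
      (hδ : ∀ b, δ (algebraMap B H b) = algebraMap B H (δB b)) :
      ¬ Fails (B := B) p S δ (orderOf δB) 1 := by
  classical
  intro hf
  have ht : 0 < orderOf δB := orderOf_pos δB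
  obtain ⟨L, hL⟩ : ∃ L : ℂ_[p] → ℂ_[p], IsIwasawaLog p L := by
    by_contra h
    obtain ⟨χ, -, -, hχ⟩ := hf
    exact hχ fun L hL => (h ⟨L, hL⟩).elim
  have : IsGalois B H := IsGalois.tower_top_of_isGalois K B H
  obtain ⟨χ, hχδ, hχκ, hfail⟩ := hf
  unfold SigmaLeopoldt at hfail
  push Not at hfail
  obtain ⟨L', hL', x, hx1, hx2, hx0⟩ := hfail
  obtain ⟨y, hy⟩ := hDSC p B H x (fun g => by
    have h1 := hx1 (g.restrictScalars K)
    rw [hχκ] at h1
    have h2 : (((1 : (H ≃ₐ[B] H) →* ℂ_[p]ˣ) g : ℂ_[p]ˣ) : ℂ_[p]) • x = x := by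
      rw [MonoidHom.one_apply, Units.val_one, one_smul]
    rw [h2] at h1
    exact h1)
  have hy' : push (algebraMap B H) y = x := hy
  have hinj : Function.Injective (push (p := p) (algebraMap B H)) := by
    rw [injective_iff_map_eq_zero]
    exact fun z hz => Pool.Agent.W332.SL7.push_injective θ _ z hz
  apply hx0
  have h0 : y = 0 := by
    refine hbase L hL y ?_ ?_
    · apply hinj
      rw [map_zero, aeval_int (push (p := p) (algebraMap B H)) _ (actLin p (δ : H →+* H)) (fun z => by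
        rw [actLin_eq, actLin_eq, push_push, push_push]
        congr 2
        exact RingHom.ext fun w => (hδ w).symm), hy', aeval_eig _ _ x (hx1 δ)]
      have h1 : IsPrimitiveRoot ((χ δ : ℂ_[p]ˣ) : ℂ_[p]) (orderOf δB) := by
        rw [IsPrimitiveRoot.coe_units_iff]
        exact hχδ
      have h3 := h1.isRoot_cyclotomic ht
      rw [IsRoot.def, ← map_cyclotomic_int, eval_map] at h3
      have h4 : aeval ((χ δ : ℂ_[p]ˣ) : ℂ_[p]) (cyclotomic (orderOf δB) ℤ) = 0 := by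
        rw [aeval_def, show algebraMap ℤ ℂ_[p] = Int.castRingHom ℂ_[p] from RingHom.ext_int _ _]
        exact h3
      rw [h4, zero_smul]
    · intro τ hτ
      obtain ⟨σ, rfl⟩ := exists_over (H := H) τ
      rw [← logLin_push, hy', logLin_unq hUNQ hL hL']
      refine hx2 σ ?_
      have h1 : σ.comp (algebraMap K H) = ((σ.comp (algebraMap B H)).comp (algebraMap K B)) := by
        ext k
        change σ (algebraMap K H k) = σ (algebraMap B H (algebraMap K B k))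
        rw [← IsScalarTower.algebraMap_apply K B H]
      rw [h1]
      exact hτ
  rw [← hy', h0, map_zero]

/-- the exceptional exponents -/
def Exc (p : ℕ) [Fact p.Prime] {K B H : Type} [Field K] [Field B] [Field H] [NumberField H]
    [Algebra K B] [Algebra K H] [Algebra B H] [IsScalarTower K B H] (S : Set (K →+* ℂ_[p]))
    (δ : H ≃ₐ[K] H) (t : ℕ) (κ : (H ≃ₐ[B] H) →* ℂ_[p]ˣ) : Set ℕ :=
  {j : ℕ | ∃ m : ℕ, orderOf (κ ^ m) = p ^ j ∧ Fails (B := B) p S δ t (κ ^ m)}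

/-- the reduction of the theorem for abelian extensions to the theorem for cyclic extensions -/
theorem reduce (hUNQ : S_UNQ) (hDSC : S_DSC) (hRAMD : S_RAMD) (θ : ℂ_[p] ≃+* ℂ)
    {L : ℂ_[p] → ℂ_[p]} (hL : IsIwasawaLog p L) (S : Set (K →+* ℂ_[p])) (δB : B ≃ₐ[K] B)
    (hbase : ∀ (L : ℂ_[p] → ℂ_[p]) (hL : IsIwasawaLog p L),
      Base hL (SB B S) (δB : B ≃+* B) (orderOf δB))
    (Q : Finset (HeightOneSpectrum (𝓞 B))) (P : ℕ → Prop)
    (hP : ∀ (H : Type) [Field H] [NumberField H] [Algebra B H] [IsGalois B H] (n : ℕ),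
      finrank B H = p ^ n → ∀ γ : H ≃ₐ[B] H, (∀ g : H ≃ₐ[B] H, ∃ i : ℕ, g = γ ^ i) →
      ∀ δ : H ≃+* H, (∀ b, δ (algebraMap B H b) = algebraMap B H ((δB : B ≃+* B) b)) →
      (∀ x, γ (δ x) = δ (γ x)) →
      (∀ w : HeightOneSpectrum (𝓞 H), Okp p (SB B S) (δB : B ≃+* B) (orderOf δB) Q w) →
      ∀ J : Finset ℕ, (∀ j ∈ J, 1 ≤ j ∧ Lev hL (Ov H (SB B S)) (γ : H ≃+* H) δ (orderOf δB) j) →
      P J.card)
    {H : Type} [Field H] [NumberField H] [Algebra K H] [Algebra B H] [IsScalarTower K B H]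
      [IsGalois K H] (hab : ∀ g h : H ≃ₐ[K] H, g * h = h * g) (δ : H ≃ₐ[K] H)
      (hδ : ∀ b, δ (algebraMap B H b) = algebraMap B H (δB b))
      (hok : ∀ w : HeightOneSpectrum (𝓞 H), Okp p (SB B S) (δB : B ≃+* B) (orderOf δB) Q w)
      (κ : (H ≃ₐ[B] H) →* ℂ_[p]ˣ) (n : ℕ) (hn : orderOf κ = p ^ n) :
      P (Exc (B := B) p S δ (orderOf δB) κ).ncard := by
  classical
  have ht : 0 < orderOf δB := orderOf_pos δB
  have : IsGalois B H := IsGalois.tower_top_of_isGalois K B H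
  obtain ⟨γ₀, hγ₀⟩ := exists_gen κ
  set A := Exc (B := B) p S δ (orderOf δB) κ with hA
  have hlev : ∀ j ∈ A, 1 ≤ j ∧ Lev hL (Ov (Fx κ) (SB B S))
      ((gres κ γ₀ : Fx κ ≃ₐ[B] Fx κ) : Fx κ ≃+* Fx κ) (dres hab κ δ) (orderOf δB) j := by
    rintro j ⟨m, hm, hf⟩
    refine ⟨?_, fails_level hab hUNQ hDSC θ hL S δ (orderOf δB) ht κ γ₀ hγ₀ m j hm hf⟩
    by_contra h0
    have h1 : j = 0 := by omega
    rw [h1, pow_zero, orderOf_eq_one_iff] at hm
    rw [hm] at hf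
    exact fails_one hUNQ hDSC θ S δB hbase δ hδ hf
  have hfin : A.Finite := by
    refine (Set.finite_le_nat n).subset ?_
    rintro j ⟨m, hm, hf⟩
    have h2 : orderOf (κ ^ m) ∣ orderOf κ := orderOf_pow_dvd m
    rw [hm, hn] at h2
    exact (Nat.pow_dvd_pow_iff_le_right hp.out.one_lt).1 h2
  rw [Set.ncard_eq_toFinset_card A hfin]
  exact hP (Fx κ) n (by rw [card_Fx κ γ₀ hγ₀, hn]) (gres κ γ₀) (fun g => by
      obtain ⟨g, rfl⟩ := gres_surj κ g
      obtain ⟨i, hi⟩ := hγ₀ g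
      refine ⟨i, ?_⟩
      rw [← map_pow, kappa_of_gres, hi, map_pow]) (dres hab κ δ) (fun b => by
      apply Subtype.ext
      rw [dres_coe]
      exact hδ b) (fun x => by
      apply Subtype.ext
      rw [gres_coe, dres_coe, dres_coe, gres_coe]
      exact comm_apply hab γ₀ δ x) (hRAMD p B (Fx κ) H (SB B S) (δB : B ≃+* B) (orderOf δB) Q hok)
    hfin.toFinset (fun j hj => hlev j ((Set.Finite.mem_toFinset hfin).1 hj))

lemma exc_empty (h : ¬ ∃ L : ℂ_[p] → ℂ_[p], IsIwasawaLog p L) (S : Set (K →+* ℂ_[p]))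
    {H : Type} [Field H] [NumberField H] [Algebra K H] [Algebra B H] [IsScalarTower K B H]
    (δ : H ≃ₐ[K] H) (t : ℕ) (κ : (H ≃ₐ[B] H) →* ℂ_[p]ˣ) : Exc (B := B) p S δ t κ = ∅ := by
  rw [Set.eq_empty_iff_forall_notMem]
  rintro i ⟨m, -, χ, -, -, hχ⟩
  exact hχ fun L hL => (h ⟨L, hL⟩).elim

/-- **At most `e` exceptional orders among the powers of a character.** -/
theorem bound (hUNI : S_UNI) (hDOWN : S_DOWN) (hFINQ : S_FINQ) (hDES : S_DES) (hUNQ : S_UNQ)
    (hDSC : S_DSC) (hRAMD : S_RAMD) (θ : ℂ_[p] ≃+* ℂ)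
    (S : Set (K →+* ℂ_[p])) (hSne : S.Nonempty)
    (hcl : ∀ τ τ' : K →+* ℂ_[p], (∀ y, ‖τ' y‖ = ‖τ y‖) → τ ∈ S → τ' ∈ S)
    (hμ : ∀ τ ∈ SB B S, ∀ ζ ∈ cl τ, ζ ^ p = 1 → ζ = 1) (δB : B ≃ₐ[K] B)
    (hbase : ∀ (L : ℂ_[p] → ℂ_[p]) (hL : IsIwasawaLog p L),
      Base hL (SB B S) (δB : B ≃+* B) (orderOf δB))
    (Q : Finset (HeightOneSpectrum (𝓞 B))) :
    ∃ e : ℕ, ∀ (H : Type) [Field H] [NumberField H] [Algebra K H] [Algebra B H] [IsScalarTower K B H]
      [IsGalois K H], (∀ g h : H ≃ₐ[K] H, g * h = h * g) → ∀ δ : H ≃ₐ[K] H,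
      (∀ b, δ (algebraMap B H b) = algebraMap B H (δB b)) →
      (∀ w : HeightOneSpectrum (𝓞 H), Okp p (SB B S) (δB : B ≃+* B) (orderOf δB) Q w) →
      ∀ (κ : (H ≃ₐ[B] H) →* ℂ_[p]ˣ) (n : ℕ), orderOf κ = p ^ n →
      (Exc (B := B) p S δ (orderOf δB) κ).ncard ≤ e := by
  classical
  have ht : 0 < orderOf δB := orderOf_pos δB
  by_cases hLex : ∃ L : ℂ_[p] → ℂ_[p], IsIwasawaLog p L
  swap
  · refine ⟨0, fun H _ _ _ _ _ _ hab δ hδ hok κ n hn => ?_⟩
    rw [exc_empty hLex, Set.ncard_empty]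
  obtain ⟨L, hL⟩ := hLex
  obtain ⟨e, he⟩ := core hUNI hDOWN hFINQ hDES B hL (SB B S) (SB_nonempty S hSne) (SB_closed S hcl)
    hμ (δB : B ≃+* B) (orderOf δB) ht (fun x => by rw [iter_coe, pow_orderOf_eq_one]; rfl)
    (hbase L hL) Q
  exact ⟨e, fun H _ _ _ _ _ _ hab δ hδ hok κ n hn =>
    reduce hUNQ hDSC hRAMD θ hL S δB hbase Q (fun x => x ≤ e) he hab δ hδ hok κ n hn⟩

/-- **Less than `m` exceptional orders if the Selmer group modulo `p^m` has less than `p^m` elements.** -/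
theorem bound_sel (hUNI : S_UNI) (hDOWN : S_DOWN) (hDES : S_DES) (hUNQ : S_UNQ)
    (hDSC : S_DSC) (hRAMD : S_RAMD) (θ : ℂ_[p] ≃+* ℂ)
    (S : Set (K →+* ℂ_[p])) (hSne : S.Nonempty)
    (hcl : ∀ τ τ' : K →+* ℂ_[p], (∀ y, ‖τ' y‖ = ‖τ y‖) → τ ∈ S → τ' ∈ S)
    (hμ : ∀ τ ∈ SB B S, ∀ ζ ∈ cl τ, ζ ^ p = 1 → ζ = 1) (δB : B ≃ₐ[K] B)
    (hbase : ∀ (L : ℂ_[p] → ℂ_[p]) (hL : IsIwasawaLog p L),
      Base hL (SB B S) (δB : B ≃+* B) (orderOf δB)) (m : ℕ) (hm : 0 < m)
    (hB : SelLt p (SB B S) (δB : B ≃+* B) (orderOf δB) m)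
    (H : Type) [Field H] [NumberField H] [Algebra K H] [Algebra B H] [IsScalarTower K B H]
      [IsGalois K H] (hab : ∀ g h : H ≃ₐ[K] H, g * h = h * g) (δ : H ≃ₐ[K] H)
      (hδ : ∀ b, δ (algebraMap B H b) = algebraMap B H (δB b))
      (hok : ∀ w : HeightOneSpectrum (𝓞 H), Okp p (SB B S) (δB : B ≃+* B) (orderOf δB) ∅ w)
      (κ : (H ≃ₐ[B] H) →* ℂ_[p]ˣ) (n : ℕ) (hn : orderOf κ = p ^ n) :
      (Exc (B := B) p S δ (orderOf δB) κ).ncard < m := by
  classical
  have ht : 0 < orderOf δB := orderOf_pos δB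
  by_cases hLex : ∃ L : ℂ_[p] → ℂ_[p], IsIwasawaLog p L
  swap
  · rw [exc_empty hLex, Set.ncard_empty]
    exact hm
  obtain ⟨L, hL⟩ := hLex
  refine reduce hUNQ hDSC hRAMD θ hL S δB hbase ∅ (fun x => x < m) ?_ hab δ hδ hok κ n hn
  intro H' _ _ _ _ n' hn' γ hγ δ' hδ' hδγ' hok' J hJ
  exact core_sel hUNI hDOWN hDES B hL (SB B S) (SB_nonempty S hSne) (SB_closed S hcl)
      hμ (δB : B ≃+* B) (orderOf δB) ht (fun x => by rw [iter_coe, pow_orderOf_eq_one]; rfl) m hB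
      H' n' hn' γ hγ δ' hδ' hδγ' hok' J hJ

end main

end Pool.Agent.L7h1.PX
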