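import Mathlib
import Pool.Agent.W289.SL.Defs

/-!
# The `Σ`-Leopoldt conjecture in `p`-extensions (statements; project PX of helper1, MP_fc6b1e_nt)

THEOREM. Let `p` be odd, `K` a number field (in the application a CM field), `S` a set of embeddings
`K → ℂ_p` which is a union of classes of embeddings with the same absolute value (a set `V` of places
above `p`), `B/K` a cyclic extension of degree `t ∣ p - 1`, `χ₀` a faithful character of `Gal(B/K)`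
for which the `S`-Leopoldt statement holds, `μ_p ⊄ B_w` for `w` above `V`. Then there is `e` such that for
EVERY cyclic extension `H/K` of degree `t p^n` containing `B` such that `H/B` is ramified at most at places
above `V` and at places `v` with `χ₀ ≠ 1` on the decomposition group: for all but at most `e` of the numbers
`j ≤ n` the `S`-Leopoldt statement holds for all characters `χ₀ κ`, `κ` of order `p^j`. In particular it
holds for all but finitely many of the characters `χ₀ κ` of every such `ℤ_p`-extension.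

Proof. Let `L = {x ∈ ℤ_p ⊗ 𝓞_H^× : δ x = ω x, log_S x = 0}`, `δ ∈ Gal(H/K)` of order `t`, `ω = χ₀ δ`, `γ` a
generator of `Gal(H/B)`. If `m` of the `j` fail then `(L/p^m)^γ` has at least `p^m` elements (LAT). An element is
represented by a unit `u` of `H` with `γ u / u`, `δ u / u^s` (`s ≡ ω`) in the `p^k`-th powers, `u` a `p^k`-th
power in `H_w` for `w` above `V` (TINY). By Hilbert 90 `u = a z^{p^k}` with `a ∈ B^×` (H90), `a` is a `p^k`-th
power in `B_v` (DES), its ideal is a `p^k`-th power (VU, VS, VD), `δ a / a^s ∈ B^{× p^k}`. The number of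
such `a` modulo `p^k`-th powers is bounded by a constant independent of `k` (CLS, SEL, LOGB, BND).
-/

set_option autoImplicit false

namespace Pool.Agent.L7h1.PX

open NumberField TensorProduct Pool.Agent.W289.SL Module IsDedekindDomain

section defs

variable {p : ℕ} [Fact p.Prime]

/-- the closure of the image of an embedding into `ℂ_p` (the completion) -/
noncomputable def cl {H : Type} [Field H] (σ : H →+* ℂ_[p]) : Subfield ℂ_[p] :=
  σ.fieldRange.topologicalClosure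

/-- the valuation of `a` at `v` is divisible by `m` -/
def Dvd {B : Type} [Field B] [NumberField B] (v : HeightOneSpectrum (𝓞 B)) (m : ℕ) (a : B) : Prop :=
  ∃ b : B, v.valuation B a = v.valuation B b ^ m

/-- the prime `w` of `H` is unramified over `B` -/
def Unr (B : Type) {H : Type} [Field B] [NumberField B] [Field H] [NumberField H] [Algebra B H]
    (w : HeightOneSpectrum (𝓞 H)) : Prop :=
  ¬ (w.asIdeal.comap (algebraMap (𝓞 B) (𝓞 H))).map (algebraMap (𝓞 B) (𝓞 H)) ≤ w.asIdeal ^ 2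

/-- the embedding `σ` induces the prime `w` -/
def Ind {H : Type} [Field H] [NumberField H] (σ : H →+* ℂ_[p]) (w : HeightOneSpectrum (𝓞 H)) : Prop :=
  ∀ x : 𝓞 H, x ∈ w.asIdeal ↔ ‖σ (x : H)‖ < 1

end defs

/-- RAT: relations between the logarithms at all the embeddings inducing a place are defined over `ℚ_p`.
PROOF: `A = cl σ` is finite dimensional over `ℚ_p` (it is `ℚ_p ⊗ σ(H)`, complete). For a `ℚ_p`-algebra map
`s : A → ℂ_p` the absolute value is preserved (uniqueness of the extension), so `s` is continuous,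
`L (s y) = s (L y)` for `y = σ u` (a power of `y` is `1 + z` with `‖z‖ < 1`; `hL.ser`), `L y ∈ A`, and
`s ∘ σ` is one of the `σ'`. So `∑ c_i Tr(e L(σ u_i)) = ∑_s s(e) ∑_i c_i s(L(σ u_i)) = 0` for all `e ∈ A`,
hence `Tr(e ∑ φ(c_i) L(σ u_i)) = 0`, and the trace form is nondegenerate. -/
def S_RAT : Prop := ∀ (p : ℕ) [Fact p.Prime] (H : Type) [Field H] [NumberField H] (L : ℂ_[p] → ℂ_[p]),
  IsIwasawaLog p L → ∀ (r : ℕ) (u : Fin r → (𝓞 H)ˣ) (c : Fin r → ℂ_[p]) (σ : H →+* ℂ_[p]),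
  (∀ σ' : H →+* ℂ_[p], (∀ y, ‖σ' y‖ = ‖σ y‖) → ∑ i, c i * L (σ' ((u i : 𝓞 H) : H)) = 0) →
  ∀ φ : ℂ_[p] →ₗ[ℚ_[p]] ℚ_[p],
    ∑ i, algebraMap ℚ_[p] ℂ_[p] (φ (c i)) * L (σ ((u i : 𝓞 H) : H)) = 0

/-- TINY: units with a small logarithm are `p^k`-th powers in the completion. PROOF: let
`N = N' p^s`, `p ∤ N'`, with `u^N ≡ 1` modulo `p^2` for all units `u` of `𝓞 H` (finite ring). Then
`‖σ(u)^N - 1‖ = ‖L(σ(u)^N)‖ = ‖N‖ ‖L(σ u)‖` is small, so `σ(u)^N = y^(p^(k+s))` with `y ∈ cl σ`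
(Newton's method or the binomial series in the complete field `cl σ`), so
`(σ(u)^N' / y^(p^k))^(p^s) = 1`, so `σ(u)^N' = y^(p^k)`; use `N' a + p^k b = 1`. -/
def S_TINY : Prop := ∀ (p : ℕ) [Fact p.Prime] (H : Type) [Field H] [NumberField H] (L : ℂ_[p] → ℂ_[p]),
  IsIwasawaLog p L → ∀ (σ : H →+* ℂ_[p]), (∀ ζ ∈ cl σ, ζ ^ p = 1 → ζ = 1) → ∀ k : ℕ,
  ∃ ε : ℝ, 0 < ε ∧ ∀ u : (𝓞 H)ˣ, ‖L (σ ((u : 𝓞 H) : H))‖ < ε →
    ∃ b ∈ cl σ, b ^ p ^ k = σ ((u : 𝓞 H) : H)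

/-- LOGB: the logarithm of a unit which is a `p^k`-th power in the completion is small. PROOF: `b` has
absolute value one; approximate it by `τ b'`, `b' ∈ B`; with `N` as in TINY (or the order of the unit
group of `𝓞_B / 𝔭^m`) `‖b^N - 1‖ ≤ ‖p^2‖`, so `‖L b‖ ≤ ‖p^2‖ / ‖N‖`. -/
def S_LOGB : Prop := ∀ (p : ℕ) [Fact p.Prime] (B : Type) [Field B] [NumberField B] (L : ℂ_[p] → ℂ_[p]),
  IsIwasawaLog p L → ∀ (τ : B →+* ℂ_[p]), ∃ C : ℝ, ∀ (k : ℕ) (u : (𝓞 B)ˣ),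
    (∃ b ∈ cl τ, b ^ p ^ k = τ ((u : 𝓞 B) : B)) → ‖L (τ ((u : 𝓞 B) : B))‖ ≤ C * ((p : ℝ)⁻¹) ^ k

/-- DES: `p^k`-th roots in the completions descend in Galois extensions of degree a power of `p` without
`p`-th roots of unity. PROOF: `A₀ = cl (σ ∘ algebraMap)`, `A₁ = cl σ` is generated over `A₀` by a root `σ θ`
of the minimal polynomial of a generator `θ` of `H/B` (finite dimensional over the complete field `A₀`, so
closed), and it is a splitting field of this polynomial; so `A₁/A₀` is Galois, the group embeds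
into `Gal(H/B)` by restriction, so it is a `p`-group. It acts on the `p - 1` primitive `p`-th roots of
unity in `A₁` (if there are any), so it fixes one. For `b` with `b^(p^k) ∈ A₀`: `g b / b` is a
`p^k`-th root of unity, so `g b = b`. -/
def S_DES : Prop := ∀ (p : ℕ) [Fact p.Prime] (B H : Type) [Field B] [NumberField B] [Field H]
  [NumberField H] [Algebra B H] [IsGalois B H] (n : ℕ), finrank B H = p ^ n → ∀ σ : H →+* ℂ_[p],
  (∀ ζ ∈ cl (σ.comp (algebraMap B H)), ζ ^ p = 1 → ζ = 1) →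
  (∀ ζ ∈ cl σ, ζ ^ p = 1 → ζ = 1) ∧ ∀ k : ℕ, ∀ b ∈ cl σ,
    b ^ p ^ k ∈ cl (σ.comp (algebraMap B H)) → b ∈ cl (σ.comp (algebraMap B H))

/-- H90. PROOF: `g x = x y_g^(p^k)` with `y_g` unique; it is a cocycle, so a coboundary
(`groupCohomology.isMulCoboundary₁_of_isMulCocycle₁_of_aut_to_units`). -/
def S_H90 : Prop := ∀ (p : ℕ) [Fact p.Prime] (B H : Type) [Field B] [Field H] [Algebra B H]
  [FiniteDimensional B H] [IsGalois B H], (∀ ζ : H, ζ ^ p = 1 → ζ = 1) → ∀ (k : ℕ) (x : H), x ≠ 0 →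
  (∀ g : H ≃ₐ[B] H, ∃ y : H, g x = x * y ^ p ^ k) →
  ∃ (a : B) (z : H), a ≠ 0 ∧ z ≠ 0 ∧ x = algebraMap B H a * z ^ p ^ k

/-- VU: the valuations at unramified primes. -/
def S_VU : Prop := ∀ (B H : Type) [Field B] [NumberField B] [Field H] [NumberField H] [Algebra B H]
  (m : ℕ) (w : HeightOneSpectrum (𝓞 H)) (v : HeightOneSpectrum (𝓞 B)),
  v.asIdeal = w.asIdeal.comap (algebraMap (𝓞 B) (𝓞 H)) → Unr B w →
  ∀ (a : B) (z : H) (u : (𝓞 H)ˣ), a ≠ 0 → z ≠ 0 → 0 < m →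
  ((u : 𝓞 H) : H) = algebraMap B H a * z ^ m → Dvd v m a

/-- VS: the valuations at the primes induced by `τ`. PROOF: `b = lim τ b'`, `b' ∈ B`, so
`‖τ a‖ = ‖τ b'‖ ^ m`; and `‖τ y‖ = 1` implies `v y = 1`. -/
def S_VS : Prop := ∀ (p : ℕ) [Fact p.Prime] (B : Type) [Field B] [NumberField B] (m : ℕ)
  (τ : B →+* ℂ_[p]) (v : HeightOneSpectrum (𝓞 B)), Ind τ v → ∀ a : B, a ≠ 0 → 0 < m →
  (∃ b ∈ cl τ, b ^ m = τ a) → Dvd v m a

/-- VD: the valuations at primes stable under an automorphism `g`: `(s - 1) v(a)` is divisible by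
`p^k`. -/
def S_VD : Prop := ∀ (p : ℕ) [Fact p.Prime] (B : Type) [Field B] [NumberField B] (k : ℕ) (g : B ≃+* B)
  (v : HeightOneSpectrum (𝓞 B)),
  (∀ x y : 𝓞 B, (y : B) = g (x : B) → (x ∈ v.asIdeal ↔ y ∈ v.asIdeal)) →
  ∀ (a c : B) (s : ℤ), a ≠ 0 → ¬ (p : ℤ) ∣ s - 1 → g a = a ^ s * c ^ p ^ k → Dvd v (p ^ k) a

/-- CLS: PROOF: `(a) = I^m` for a fractional ideal `I`, and `I^h = (b)`, `h` the class number. -/
def S_CLS : Prop := ∀ (B : Type) [Field B] [NumberField B], ∃ h : ℕ, 0 < h ∧ ∀ (a : B) (m : ℕ),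
  a ≠ 0 → 0 < m → (∀ v : HeightOneSpectrum (𝓞 B), Dvd v m a) →
  ∃ (u : (𝓞 B)ˣ) (b : B), b ≠ 0 ∧ a ^ h = ((u : 𝓞 B) : B) * b ^ m

/-- SEL: there are finitely many such elements modulo `m`-th powers. PROOF: class group and
finitely generated unit group: two elements whose ideals `I` are in the same class differ by a unit, up
to an `m`-th power, and the units modulo `m`-th powers are a finite group. -/
def S_SEL : Prop := ∀ (B : Type) [Field B] [NumberField B] (m : ℕ), 0 < m → ∃ C : ℕ, ∀ Y : Finset B,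
  (∀ a ∈ Y, a ≠ 0 ∧ ∀ v : HeightOneSpectrum (𝓞 B), Dvd v m a) →
  (∀ a ∈ Y, ∀ a' ∈ Y, a ≠ a' → ¬ ∃ c : B, a = a' * c ^ m) → Y.card ≤ C

/-- BND: units with small logarithms in the `ω`-part are almost `p^k`-th powers. PROOF: coordinates
with respect to fundamental units; `n ∈ ℤ^r` the vector of `u`. By the hypothesis `δ n ≡ s n` modulo `p^k`, so
`n ≡ x := t⁻¹ ∑ ω^(-i) δ^i n` modulo `p^k ℤ_p^r`, and `δ x = ω x`. So `‖log_τ x‖ ≤ C p^(-k)` for
`τ ∈ S`, and by injectivity (an injective linear map between finite dimensional spaces over the complete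
field `ℂ_p` is bounded below) `‖x‖ ≤ C' p^(-k)`, so `n ∈ p^(k-c) ℤ^r`. The roots of unity of `B` are
`p^k`-th powers. -/
def S_BND : Prop := ∀ (p : ℕ) [Fact p.Prime] (B : Type) [Field B] [NumberField B],
  (∀ ζ : B, ζ ^ p = 1 → ζ = 1) → ∀ (L : ℂ_[p] → ℂ_[p]) (hL : IsIwasawaLog p L)
  (S : Set (B →+* ℂ_[p])) (δ : B ≃+* B) (t : ℕ) (ω : ℤ_[p]), t ∣ p - 1 → (∀ x, (δ : B → B)^[t] x = x) →
  ω ^ t = 1 →
  (∀ x : UM p B, actLin p (δ : B →+* B) x = algebraMap ℚ_[p] ℂ_[p] (ω : ℚ_[p]) • x →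
    (∀ τ ∈ S, logLin hL τ x = 0) → x = 0) →
  ∀ C : ℝ, ∃ c : ℕ, ∀ (k : ℕ) (s : ℤ), (∃ z : ℤ_[p], (s : ℤ_[p]) = ω + (p : ℤ_[p]) ^ k * z) →
    ∀ u : (𝓞 B)ˣ, (∀ τ ∈ S, ‖L (τ ((u : 𝓞 B) : B))‖ ≤ C * ((p : ℝ)⁻¹) ^ k) →
    (∃ w : (𝓞 B)ˣ, δ ((u : 𝓞 B) : B) = ((u : 𝓞 B) : B) ^ s * ((w : 𝓞 B) : B) ^ p ^ k) →
    ∃ w : (𝓞 B)ˣ, u = w ^ p ^ (k - c)

/-- LAT: lattices over `ℤ_p` with an action of a cyclic group of order `p^n`, `A` the matrix of the generator,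
`D` the matrix of a commuting automorphism. `J` is a set of levels `j` at which the kernel is not
zero. (Me.) -/
def S_LAT : Prop := ∀ (p : ℕ) [Fact p.Prime] (r n : ℕ) (A D : Matrix (Fin r) (Fin r) ℤ) (ω : ℤ_[p])
  (T : Type) [Finite T] (l : T → Fin r → ℂ_[p]) (J : Finset ℕ) (s : ℤ), A ^ p ^ n = 1 → A * D = D * A →
  (∀ σ : T, ∃ σ' : T, ∀ i, ∑ j, (A j i : ℂ_[p]) * l σ j = l σ' i) →
  (∀ j ∈ J, 1 ≤ j ∧ ∃ x : Fin r → ℤ_[p], x ≠ 0 ∧
    (∀ σ, ∑ i, algebraMap ℚ_[p] ℂ_[p] (x i : ℚ_[p]) * l σ i = 0) ∧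
    (D.map (Int.cast : ℤ → ℤ_[p])).mulVec x = ω • x ∧
    (Polynomial.aeval (A.map (Int.cast : ℤ → ℤ_[p])) (Polynomial.cyclotomic (p ^ j) ℤ_[p])).mulVec x
      = 0) →
  (∃ z : ℤ_[p], (s : ℤ_[p]) = ω + (p : ℤ_[p]) ^ J.card * z) →
  ∃ Y : Finset (Fin r → ℤ), p ^ J.card ≤ Y.card ∧
    (∀ y ∈ Y, ∀ y' ∈ Y, y ≠ y' → ¬ ∃ z : Fin r → ℤ, y = y' + (p : ℤ) ^ J.card • z) ∧
    ∀ y ∈ Y, (∃ z : Fin r → ℤ, A.mulVec y = y + (p : ℤ) ^ J.card • z) ∧
      (∃ z : Fin r → ℤ, D.mulVec y = s • y + (p : ℤ) ^ J.card • z) ∧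
      ∀ ε : ℝ, 0 < ε → ∃ z : Fin r → ℤ, ∀ σ,
        ‖∑ i, ((y + (p : ℤ) ^ J.card • z) i : ℂ_[p]) * l σ i‖ < ε

/-- ABL: Leopoldt's conjecture for abelian fields, in the form of the `S`-Leopoldt statement for a CM field
`B` with abelian maximal real subfield `F`. PROOF: (1) every element of `ℂ_p ⊗ 𝓞_B^×` comes from
`ℂ_p ⊗ 𝓞_F^×` (finite index of the units, `NumberField.IsCMField`/`Units.index...`, or `u² = (u c(u)) (u/c(u))` and `u/c(u)`
is a root of unity). (2) The kernel of all the logarithms on `ℂ_p ⊗ 𝓞_F^×` is stable under the abelian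
group `Gal(F/ℚ)`, so it contains an eigenvector if it is not zero; the eigenspaces in
`ℂ_p ⊗ 𝓞_F^×` have dimension at most one (archimedean logarithms, `W332.SL6.lam`, `eq_zero_of_lam`) and are generated by
elements with algebraic coordinates (`W332.SL6.xu`); Brumer's theorem (`Helper864WL.brumerΩ`, `brumerC`,
`W332.SL6`). The bound `rank_Q` with `l = m = 1` is also enough. -/
def S_ABL : Prop := ∀ (p : ℕ) [Fact p.Prime] (F B : Type) [Field F] [NumberField F] [IsTotallyReal F]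
  [IsGalois ℚ F] [Field B] [NumberField B] [IsTotallyComplex B] [Algebra F B],
  (∀ g h : F ≃ₐ[ℚ] F, g * h = h * g) → finrank F B = 2 →
  ∀ (L : ℂ_[p] → ℂ_[p]) (hL : IsIwasawaLog p L) (T : Set (B →+* ℂ_[p])),
  (∀ τ : F →+* ℂ_[p], ∃ σ ∈ T, σ.comp (algebraMap F B) = τ) →
  ∀ x : UM p B, (∀ σ ∈ T, logLin hL σ x = 0) → x = 0

/-- UNQ: Iwasawa's logarithm is unique. -/
def S_UNQ : Prop := ∀ (p : ℕ) [Fact p.Prime] (H : Type) [Field H] [NumberField H] (L L' : ℂ_[p] → ℂ_[p]),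
  IsIwasawaLog p L → IsIwasawaLog p L' → ∀ (σ : H →+* ℂ_[p]) (u : (𝓞 H)ˣ),
  L (σ ((u : 𝓞 H) : H)) = L' (σ ((u : 𝓞 H) : H))

end Pool.Agent.L7h1.PX
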