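import Pool.Agent.L7h1.PX.Stm2
import Pool.Agent.Helper864_WL.Defs

/-!
# Project PX: the assembly
-/

set_option autoImplicit false

namespace Pool.Agent.L7h1.PX

open NumberField TensorProduct Pool.Agent.W289.SL Module IsDedekindDomain Polynomial

/-- `v` is stable under `δ^m` -/
def Stb {B : Type} [Field B] [NumberField B] (δ : B ≃+* B) (m : ℕ) (v : HeightOneSpectrum (𝓞 B)) : Prop :=
  ∀ x y : 𝓞 B, (y : B) = (δ : B → B)^[m] (x : B) → (x ∈ v.asIdeal ↔ y ∈ v.asIdeal)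

/-- the prime `w` of `H` is allowed to be anything: over `S`, or unramified over `B`, or over a prime of
`B` with nontrivial stabilizer in `⟨δ⟩` (and in `Q` if `p ∣ t`) -/
def Okp (p : ℕ) [Fact p.Prime] {B H : Type} [Field B] [NumberField B] [Field H] [NumberField H]
    [Algebra B H] (S : Set (B →+* ℂ_[p])) (δ : B ≃+* B) (t : ℕ)
    (Q : Finset (HeightOneSpectrum (𝓞 B))) (w : HeightOneSpectrum (𝓞 H)) : Prop :=
  (∃ σ : H →+* ℂ_[p], σ.comp (algebraMap B H) ∈ S ∧ Ind σ w) ∨ Unr B w ∨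
    ∃ v : HeightOneSpectrum (𝓞 B), v.asIdeal = w.asIdeal.comap (algebraMap (𝓞 B) (𝓞 H)) ∧
      (v ∈ Q ∨ ¬ p ∣ t) ∧ ∃ m : ℕ, 0 < m ∧ m < t ∧ Stb δ m v

/-- UNI: many units from the levels of the kernel. PROOF from RAT, LAT (with `D := Φ_t(D)`, `ω = s = 0`):
`w_i = 1 ⊗ u_i`, `u_i` fundamental units of `H` (`i < r`), is a basis of `UM p H` (`W332.SL6`:
`one_tmul_decomp`, `fu`, `indep...`; `UM p H`), the matrices `A`, `D` of `actLin γ`, `actLin δ` in it are integral (cast of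
`A, D ∈ M_r(ℤ)`), `A^(p^n) = 1`, `A D = D A`; `l σ i = L (σ u_i)`, `T` finite. For `j ∈ J` and the coordinates `c`
of `x` some `ℚ_p`-linear `φ : ℂ_p → ℚ_p` has `φ(c_i) ≠ 0` for some `i`; multiply by a power of `p`. For
`y ∈ ℤ^r` take the unit `∏ u_i^(y_i)`; units with the same coordinates differ by a root of unity, which is
a `p^k`-th power (no `p`-th roots of unity). -/
def S_UNI : Prop := ∀ (p : ℕ) [Fact p.Prime] (H : Type) [Field H] [NumberField H],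
  (∀ ζ : H, ζ ^ p = 1 → ζ = 1) → ∀ (L : ℂ_[p] → ℂ_[p]) (hL : IsIwasawaLog p L)
  (T : Set (H →+* ℂ_[p])) (γ δ : H ≃+* H) (n t : ℕ), (∀ x, (γ : H → H)^[p ^ n] x = x) →
  (∀ x, γ (δ x) = δ (γ x)) → (∀ σ σ' : H →+* ℂ_[p], (∀ y, ‖σ' y‖ = ‖σ y‖) → σ ∈ T → σ' ∈ T) →
  (∀ σ ∈ T, σ.comp (γ : H →+* H) ∈ T) → ∀ J : Finset ℕ,
  (∀ j ∈ J, 1 ≤ j ∧ ∃ x : UM p H, x ≠ 0 ∧ (∀ σ ∈ T, logLin hL σ x = 0) ∧
    aeval (actLin p (γ : H →+* H)) (cyclotomic (p ^ j) ℤ) x = 0 ∧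
    aeval (actLin p (δ : H →+* H)) (cyclotomic t ℤ) x = 0) →
  ∃ Y : Finset (𝓞 H)ˣ, p ^ J.card ≤ Y.card ∧
    (∀ y ∈ Y, ∀ y' ∈ Y, y ≠ y' → ¬ ∃ w : (𝓞 H)ˣ, y = y' * w ^ p ^ J.card) ∧
    ∀ y ∈ Y, (∃ w : (𝓞 H)ˣ, γ ((y : 𝓞 H) : H) = ((y : 𝓞 H) : H) * ((w : 𝓞 H) : H) ^ p ^ J.card) ∧
      (∃ w : (𝓞 H)ˣ, aeval (uE (δ : H →+* H)) (cyclotomic t ℤ) (Additive.ofMul y) =
        p ^ J.card • Additive.ofMul w) ∧
      ∀ ε : ℝ, 0 < ε → ∃ w : (𝓞 H)ˣ, ∀ σ ∈ T,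
        ‖L (σ (((y * w ^ p ^ J.card : (𝓞 H)ˣ) : 𝓞 H) : H))‖ < ε

/-- DOWN: descent of one unit to `B`. PROOF: H90 (for `g = γ^i` iterate): `y = a z^(p^k)`. `μ_p(H) = 1` by DES and
`S ≠ ∅` (embed `H` into `cl σ`). For `τ ∈ S` choose `σ` over `τ`, TINY: `σ y` is a `p^k`-th power in `cl σ`
(finitely many `σ`: take the minimum of the `ε`'s), so `τ a = σ a` is one, DES. `Φ_t(δ) a = c^(p^k)` with
`c ∈ Hˣ`, and `c ∈ Bˣ` as `g c / c` is a `p^k`-th root of unity. Valuations: for `v` choose `w` above `v`: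
VS (`Ind τ v`), VU, VD2. -/
def S_DOWN : Prop := ∀ (p : ℕ) [Fact p.Prime] (t : ℕ), 0 < t → ∃ c₁ : ℕ,
  ∀ (B H : Type) [Field B] [NumberField B] [Field H] [NumberField H] [Algebra B H] [IsGalois B H]
  (n : ℕ), finrank B H = p ^ n → ∀ γ : H ≃ₐ[B] H, (∀ g : H ≃ₐ[B] H, ∃ i : ℕ, g = γ ^ i) →
  ∀ (δ : H ≃+* H) (δB : B ≃+* B), (∀ b, δ (algebraMap B H b) = algebraMap B H (δB b)) →
  (∀ x, δB^[t] x = x) →
  ∀ (L : ℂ_[p] → ℂ_[p]), IsIwasawaLog p L → ∀ (S : Set (B →+* ℂ_[p])), S.Nonempty →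
  (∀ τ ∈ S, ∀ ζ ∈ cl τ, ζ ^ p = 1 → ζ = 1) →
  ∀ (Q : Finset (HeightOneSpectrum (𝓞 B))), (∀ w : HeightOneSpectrum (𝓞 H), Okp p S δB t Q w) →
  ∀ (k : ℕ) (y : (𝓞 H)ˣ),
  (∃ w : (𝓞 H)ˣ, γ ((y : 𝓞 H) : H) = ((y : 𝓞 H) : H) * ((w : 𝓞 H) : H) ^ p ^ k) →
  (∃ w : (𝓞 H)ˣ, aeval (uE (δ : H →+* H)) (cyclotomic t ℤ) (Additive.ofMul y) =
    p ^ k • Additive.ofMul w) →
  (∀ ε : ℝ, 0 < ε → ∃ w : (𝓞 H)ˣ, ∀ σ : H →+* ℂ_[p], σ.comp (algebraMap B H) ∈ S →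
    ‖L (σ (((y * w ^ p ^ k : (𝓞 H)ˣ) : 𝓞 H) : H))‖ < ε) →
  ∃ (a : Bˣ) (z : Hˣ), ((y : 𝓞 H) : H) = algebraMap B H (a : B) * (z : H) ^ p ^ k ∧
    (∀ v : HeightOneSpectrum (𝓞 B), v ∉ Q → Dvd v (p ^ k) (a : B)) ∧
    (∀ v : HeightOneSpectrum (𝓞 B), Dvd v (p ^ (k - c₁)) (a : B)) ∧
    (∀ τ ∈ S, ∃ b ∈ cl τ, b ^ p ^ k = τ (a : B)) ∧
    ∃ c : Bˣ, aeval (bE (δB : B →+* B)) (cyclotomic t ℤ) (Additive.ofMul a) = p ^ k • Additive.ofMul c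

/-- FINQ: as VFIN, with weaker divisibility at the primes of the finite set `Q`. PROOF: pigeonhole: the
valuations at `v ∈ Q` are `p^(k-c₁) m_v` and `m_v` modulo `p^(c₁)` takes at most `p^(c₁)` values; divide the elements
of `Y` with the same residues by one of them and use VFIN. -/
def S_FINQ : Prop := ∀ (p : ℕ) [Fact p.Prime] (B : Type) [Field B] [NumberField B],
  (∀ ζ : B, ζ ^ p = 1 → ζ = 1) → ∀ (L : ℂ_[p] → ℂ_[p]) (hL : IsIwasawaLog p L)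
  (S : Set (B →+* ℂ_[p])) (δ : B ≃+* B) (t : ℕ), 0 < t → (∀ x, (δ : B → B)^[t] x = x) →
  (∀ x : UM p B, aeval (actLin p (δ : B →+* B)) (cyclotomic t ℤ) x = 0 →
    (∀ τ ∈ S, logLin hL τ x = 0) → x = 0) →
  ∀ (Q : Finset (HeightOneSpectrum (𝓞 B))) (c₁ : ℕ), ∃ C : ℕ, ∀ (k : ℕ) (Y : Finset Bˣ),
    (∀ a ∈ Y, (∀ v : HeightOneSpectrum (𝓞 B), v ∉ Q → Dvd v (p ^ k) (a : B)) ∧
      (∀ v : HeightOneSpectrum (𝓞 B), Dvd v (p ^ (k - c₁)) (a : B)) ∧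
      (∀ τ ∈ S, ∃ b ∈ cl τ, b ^ p ^ k = τ (a : B)) ∧
      ∃ c : Bˣ, aeval (bE (δ : B →+* B)) (cyclotomic t ℤ) (Additive.ofMul a) =
        p ^ k • Additive.ofMul c) →
    (∀ a ∈ Y, ∀ a' ∈ Y, a ≠ a' → ¬ ∃ c : Bˣ, a = a' * c ^ p ^ k) → Y.card ≤ C

/-- DSC: elements fixed by the Galois group come from below. PROOF: trace; `x = Σ c_i ⊗ u_i` fixed by `Gal(H/H')`, so
`[H : H'] x = Σ c_i ⊗ N(u_i)`, `N` the product of the conjugates, a unit of `H'`. -/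
def S_DSC : Prop := ∀ (p : ℕ) [Fact p.Prime] (H' H : Type) [Field H'] [NumberField H'] [Field H]
  [NumberField H] [Algebra H' H] [IsGalois H' H] (x : UM p H),
  (∀ g : H ≃ₐ[H'] H, actLin p (g : H →+* H) x = x) →
  ∃ y : UM p H', Pool.Agent.Helper864WL.act p (algebraMap H' H) y = x

/-- RAMD: the condition on the primes for a subextension. PROOF: let `w` be a prime of `H` above `w'`. If `σ` induces
`w`, its restriction induces `w'`. If `w` is unramified over `B`, so is `w'`. -/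
def S_RAMD : Prop := ∀ (p : ℕ) [Fact p.Prime] (B H' H : Type) [Field B] [NumberField B] [Field H']
  [NumberField H'] [Field H] [NumberField H] [Algebra B H'] [Algebra H' H] [Algebra B H]
  [IsScalarTower B H' H] (S : Set (B →+* ℂ_[p])) (δ : B ≃+* B) (t : ℕ)
  (Q : Finset (HeightOneSpectrum (𝓞 B))), (∀ w : HeightOneSpectrum (𝓞 H), Okp p S δ t Q w) →
  ∀ w' : HeightOneSpectrum (𝓞 H'), Okp p S δ t Q w'

/-- AVG: the average. PROOF: the group `X` of the characters of `G` is isomorphic to `G` and to `(ℤ/p^n)^r`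
(`CommGroup.monoidHom_mulEquiv_of_hasEnoughRootsOfUnity`). For `y` of order `p^j`, `1 ≤ j ≤ n`, the number of
`x` with `x^(p^(n-j)) = y` is `p^((n-j) r)` and all of them have order `p^n`. Sum the hypothesis over all `x`
of order `p^n`. -/
def S_AVG : Prop := ∀ (p : ℕ) [Fact p.Prime] (n r e : ℕ) (G : Type) [Group G] [Finite G],
  (∀ a b : G, a * b = b * a) → Nonempty (G ≃* (Fin r → Multiplicative (ZMod (p ^ n)))) →
  ∀ F : Set (G →* ℂ_[p]ˣ),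
  (∀ κ : G →* ℂ_[p]ˣ, orderOf κ = p ^ n → {j : ℕ | 1 ≤ j ∧ j ≤ n ∧ κ ^ p ^ (n - j) ∈ F}.ncard ≤ e) →
  ∑ j ∈ Finset.Icc 1 n, ({κ : G →* ℂ_[p]ˣ | κ ∈ F ∧ orderOf κ = p ^ j}.ncard : ℝ) /
    ({κ : G →* ℂ_[p]ˣ | orderOf κ = p ^ j}.ncard : ℝ) ≤ e

end Pool.Agent.L7h1.PX
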